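import Pool.Agent.Helper770.Blowup

set_option autoImplicit false

namespace Pool.Agent.Helper770.BlowData

open Pool.Agent.Helper770.Blowup Pool.Agent.Helper770.Blowup.Data

/-- the data of plane 0 -/
def D0 : Data 16 where
  bx v := ([3, 73, 66, 39, 22, 49, 105, 17, 119, 59, 97, 17, 25, 39, 58, 51] : List ℤ).getD v.val 0
  cy v := ([17, 24, 31, 56, 25, 60, 7, 115, -1, 26, 13, 18, 103, 87, 29, 49] : List ℤ).getD v.val 0
  dx v := ([-3, -2, -2, -1, -2, 0, -2, -1, 1, 0, -2, -6, 1, 1, 0, -2] : List ℤ).getD v.val 0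
  dy v := ([-1, 1, -1, 0, -1, -1, 1, 2, -1, 1, 1, -1, -2, -2, -1, 5] : List ℤ).getD v.val 0

/-- orientation table of plane 0 -/
def tab0 : Nat := 0xda99256698994a994746b1e06766b0a04a19b1a0b8b94f464f5fb5e2b5e04f56da994746d8994a994746b4ae2766b4ee4a99b4eef8b94f534a19b0b9b0ae4f43676627662542fe7fe77e014027661180fe3f01802546e76ee76625420540ef7eb566b56601803566f77e21c0f7660180da3f21802546f76ef76625422540ff7eb8b9b8b9188108810d42f6befabdf6fe0881f6fe389938993889f8b9f2bf0d414e1f4b51febfde3f09414f530951b0a8de3fb1a0ce3f09514e5f4f574b5101419899d899d89908990542f6aefab9f6ee0899f6eef8b90d530819fabdf2ae0d434f5f4b11ee7ffe7f09014f5709113180fe7f4b53cf7f09114f5f4b574b130101b5e6b56601c025c0f77e21c0f76601804a99018035c6f76ef76635c235c0ff7e4e5f4b11fe7fde7f09014e5f0911b4acfe7f4b51ce7f09114a5f4a574b53010147460746dab9dab9c76631c007463080ca393180c766cf66cf7735c235c0cf76b0b9b0ac18910891c766f6aef2acf6ee0891f6ee30994f563899b0a8f2ae4f56b0a0b5e618990899c776b1a0f7e6b0a00899b5a03088c766cf5fb5e0b5e4cf764a1d4f46dabddabd0746b0a80542b4a8ca3db5a8ca3d4f574a1f0746b5e04f474a1f4f51fabfdabf0d40b4ae0d51b4ecca3fb4acca3f0d514a1b4a1f4b530d41b0a9b0bc10810081f2befebef2bcfefe0081fefe3089b0a93089b0b8f2be4f47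

/-- colour table of plane 0 -/
def cm0 : Nat := 0x545eca1735e8b1a9475aaa274e5639e131d9aba1355acaa5b8a5c61ece2655d8

/-- the data of plane 1 -/
def D1 : Data 16 where
  bx v := ([53, 44, 108, 40, 35, 71, 7, 77, 52, 52, 28, 79, 11, 29, 116, 55] : List ℤ).getD v.val 0
  cy v := ([16, 69, 7, 90, 75, 33, 5, 35, 73, 59, 117, 14, 8, 17, 5, 39] : List ℤ).getD v.val 0
  dx v := ([0, -1, -5, 0, 0, 0, -1, -1, -1, -1, 1, -1, -3, -1, -3, 0] : List ℤ).getD v.val 0
  dy v := ([1, -2, 1, 1, -1, 1, -1, 0, -1, -2, -2, 1, -1, 0, 2, -1] : List ℤ).getD v.val 0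

/-- orientation table of plane 1 -/
def tab1 : Nat := 0xc8a447bac8a5e8e547beb053b65bb75b071ae8e507bab051b45347bab053c8a4b845f865304010403041fffffae5fbf7f8e50040b845faf5fbf73845faf73040375acfbf784548e58fbb3040355a355aa7ba48e5a73a344034588fbf345a87bb171aefbfb71a5845afbb1040155a155ab7bae8e5b73a14481448afbf1458a7bbb841cfbe704450443841ba5bba53bf5bbffb4044bf5bb851ba538fbab85370444fac0000cfbfefbf45a445a44dac40844004ffbf41a4cfaf4dac4000cfaccfaf49a4051acaa5eaa545acb253caa5375a450efaa545acbaf1b653451aba73c9a548a40408caa5eaa540a4bf7bc8a5fbe54404faa540a4fbf7bbf34408fbe7c8a5f8e5071a584548454004bffbbaf1bbfb78e548457845b8f1baf3471abaf34804171affbfb71a171abfbb0040055a055ab7baf8e5b73a04480448bfbf0458b7bbf84547ba58c548c540a4be5bba53bf5b87ba48c5b77bb851ba5347bab85348844fae050acbbfebb747ae3050450e0408470efbb747aecbbf1448450a0508cfaf4bac0408cba7ebb745acb25349ac440c450cfbb745acebb734584408cbaccbafb845c7ba704050407045bfffbae5bbf7b8e54040b845baf5bbf77045baf770404fac0508cba5eba747ac3053458c0418450cfba747acfaf734534508eba7cba5375bcfbf784458448fbb3050365a375ab7fb4844b77b305034508fbf345a375b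

/-- colour table of plane 1 -/
def cm1 : Nat := 0xaba135e8ca174e56b8a555d8b1a9c61ece26545ecaa5355a475a39e131d9aa27

/-- one entry of a table -/
def bit (t i : Nat) : Nat := (t >>> i) % 2

/-- the partition of the edges (and of the clusters) -/
def col (v w : Fin 16) : Bool := decide (bit cm1 (v.val * 16 + w.val) = 1)

lemma col_symm : ∀ v w, col v w = col w v := by decide +kernel

lemma col_false : ∀ v w, (col v w = false) ↔ bit cm0 (v.val * 16 + w.val) = 1 := by
  decide +kernel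

lemma col_true (v w : Fin 16) : (col v w = true) ↔ bit cm1 (v.val * 16 + w.val) = 1 := by
  simp [col]

lemma ok0 : D0.Ok where
  base := by decide +kernel
  dir := by decide +kernel

lemma ok1 : D1.Ok where
  base := by decide +kernel
  dir := by decide +kernel

lemma o0 : ∀ v w u, D0.o v w u = decide (bit tab0 ((v.val * 16 + w.val) * 16 + u.val) = 1) := by
  decide +kernel

lemma o1 : ∀ v w u, D1.o v w u = decide (bit tab1 ((v.val * 16 + w.val) * 16 + u.val) = 1) := by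
  decide +kernel

/-- computable sums -/
def sumTo : Nat → (Nat → Nat) → Nat
  | 0, _ => 0
  | k + 1, f => sumTo k f + f k

lemma sumTo_eq (n : ℕ) (f : ℕ → ℕ) : sumTo n f = ∑ i : Fin n, f i.val := by
  rw [Fin.sum_univ_eq_sum_range]
  induction n with
  | zero => rfl
  | succ k ih => rw [Finset.sum_range_succ, ← ih]; rfl

/-- number of crossing pairings -/
def cross3 (A B C D : Nat) (x01 x23 x02 x13 x03 x12 : Nat) : Nat :=
  x01 * x23 * ((A + B) % 2) * ((C + D) % 2) +
  x02 * x13 * ((A + C + 1) % 2) * ((B + D + 1) % 2) +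
  x03 * x12 * ((B + C) % 2) * ((A + D) % 2)

/-- the number of crossings of the blow-up pattern -/
def cnt (tab cm : Nat) : Nat :=
  sumTo 16 fun a => sumTo 16 fun b => sumTo 16 fun c => sumTo 16 fun e =>
    cross3 (bit tab ((a * 16 + b) * 16 + c)) (bit tab ((a * 16 + b) * 16 + e))
      (bit tab ((a * 16 + c) * 16 + e)) (bit tab ((b * 16 + c) * 16 + e))
      (bit cm (a * 16 + b)) (bit cm (c * 16 + e))
      (bit cm (a * 16 + c)) (bit cm (b * 16 + e))
      (bit cm (a * 16 + e)) (bit cm (b * 16 + c))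

set_option maxRecDepth 100000 in
lemma cnt0 : cnt tab0 cm0 = 3416 := by decide +kernel

set_option maxRecDepth 100000 in
lemma cnt1 : cnt tab1 cm1 = 3416 := by decide +kernel

lemma bit_lt (t i : ℕ) : bit t i < 2 := Nat.mod_lt _ (by norm_num)

lemma aux0 : ∀ x < 2, ∀ y < 2, ∀ A < 2, ∀ B < 2, ∀ C < 2, ∀ D < 2,
    (if (x = 1 ∧ y = 1 ∧ decide (A = 1) ≠ decide (B = 1) ∧ decide (C = 1) ≠ decide (D = 1))
      then 1 else 0) = x * y * ((A + B) % 2) * ((C + D) % 2) := by decide +kernel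

lemma aux1 : ∀ x < 2, ∀ y < 2, ∀ A < 2, ∀ B < 2, ∀ C < 2, ∀ D < 2,
    (if (x = 1 ∧ y = 1 ∧ decide (A = 1) = decide (C = 1) ∧ decide (B = 1) = decide (D = 1))
      then 1 else 0) = x * y * ((A + C + 1) % 2) * ((B + D + 1) % 2) := by decide +kernel

lemma count (D : Data 16) (p : Bool) (tab cm : ℕ)
    (ho : ∀ v w u, D.o v w u = decide (bit tab ((v.val * 16 + w.val) * 16 + u.val) = 1))
    (hc : ∀ v w, (col v w = p) ↔ bit cm (v.val * 16 + w.val) = 1) :
    (T0 D col p).card + (T1 D col p).card + (T2 D col p).card = cnt tab cm := by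
  unfold T0 T1 T2 cnt
  rw [Finset.card_filter, Finset.card_filter, Finset.card_filter, ← Finset.sum_add_distrib,
    ← Finset.sum_add_distrib, Fintype.sum_prod_type, sumTo_eq]
  refine Finset.sum_congr rfl (fun a _ => ?_)
  rw [Fintype.sum_prod_type, sumTo_eq]
  refine Finset.sum_congr rfl (fun b _ => ?_)
  rw [Fintype.sum_prod_type, sumTo_eq]
  refine Finset.sum_congr rfl (fun c _ => ?_)
  rw [sumTo_eq]
  refine Finset.sum_congr rfl (fun e _ => ?_)
  simp only [ho, hc]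
  unfold cross3
  congr 1
  · congr 1
    · exact aux0 _ (bit_lt _ _) _ (bit_lt _ _) _ (bit_lt _ _) _ (bit_lt _ _) _ (bit_lt _ _) _
        (bit_lt _ _)
    · exact aux1 _ (bit_lt _ _) _ (bit_lt _ _) _ (bit_lt _ _) _ (bit_lt _ _) _ (bit_lt _ _) _
        (bit_lt _ _)
  · exact aux0 _ (bit_lt _ _) _ (bit_lt _ _) _ (bit_lt _ _) _ (bit_lt _ _) _ (bit_lt _ _) _
      (bit_lt _ _)

theorem bound (t : ℕ) : Pool.Agent.Helper770.Crossing.biplanarCrossingNumber
    (⊤ : SimpleGraph (Fin 16 × Fin t)) ≤ t.choose 4 * 6832 + 4 * (t ^ 3 * 16 ^ 4) := by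
  refine blow (D₀ := D0) (D₁ := D1) (col := col) ok0 ok1 (by norm_num) col_symm 6832 ?_ t
  rw [count D0 false tab0 cm0 o0 col_false, count D1 true tab1 cm1 o1 col_true, cnt0, cnt1]

end Pool.Agent.Helper770.BlowData
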