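import Pool.Agent.Helper770.Straight

set_option autoImplicit false

namespace Pool.Agent.Helper770.Blowup

open Pool.Agent.Helper770.Crossing Pool.Agent.Helper770.Straight Filter Topology

/-- integer data of one plane: base points and directions -/
structure Data (m : ℕ) where
  /-- first coordinate of a base point -/
  bx : Fin m → ℤ
  /-- second coordinate of a base point -/
  cy : Fin m → ℤ
  /-- first coordinate of a direction -/
  dx : Fin m → ℤ
  /-- second coordinate of a direction -/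
  dy : Fin m → ℤ

namespace Data

variable {m : ℕ} (D : Data m)

/-- orientation of base points -/
def oz (v w u : Fin m) : ℤ :=
  (D.bx w - D.bx v) * (D.cy u - D.cy v) - (D.cy w - D.cy v) * (D.bx u - D.bx v)

/-- side of the base point `w` with respect to the direction at `v` -/
def sz (v w : Fin m) : ℤ := D.dx v * (D.cy w - D.cy v) - D.dy v * (D.bx w - D.bx v)

/-- admissible data -/
structure Ok : Prop where
  base : ∀ v w u, v ≠ w → u ≠ v → u ≠ w → D.oz v w u ≠ 0
  dir : ∀ v w, v ≠ w → D.sz v w ≠ 0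

/-- the point with parameter `x` of the cluster of `v` -/
noncomputable def Q (v : Fin m) (x : ℝ) : ℂ :=
  ⟨D.bx v + x * D.dx v - x ^ 2 * D.dy v, D.cy v + x * D.dy v + x ^ 2 * D.dx v⟩

/-- orientation of a sorted triple -/
def o (v w u : Fin m) : Bool :=
  if v = w then (if w = u then true else decide (0 < D.sz v u))
  else if v = u then decide (D.sz v w < 0)
  else if w = u then decide (0 < D.sz w v)
  else decide (0 < D.oz v w u)

/-- the reduced orientation of two points of a cluster and another point -/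
noncomputable def sf (v w : Fin m) (q : ℝ × ℝ × ℝ) : ℝ :=
  (D.dx v - (q.1 + q.2.1) * D.dy v) * ((D.Q w q.2.2).im - (D.Q v q.1).im) -
    (D.dy v + (q.1 + q.2.1) * D.dx v) * ((D.Q w q.2.2).re - (D.Q v q.1).re)

lemma ori_two (v w : Fin m) (x y z : ℝ) :
    ori (D.Q v x) (D.Q v y) (D.Q w z) = (y - x) * D.sf v w (x, y, z) := by
  simp only [ori, sf, Q]; ring

lemma ori_three (v : Fin m) (x y z : ℝ) :
    ori (D.Q v x) (D.Q v y) (D.Q v z) =
      (y - x) * (z - x) * (z - y) * ((D.dx v : ℝ) ^ 2 + (D.dy v : ℝ) ^ 2) := by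
  simp only [ori, Q]; ring

variable {D}

lemma ev1 (h : D.Ok) : ∀ᶠ q : ℝ × ℝ × ℝ in 𝓝 0, ∀ v w u, v ≠ w → u ≠ v → u ≠ w →
    0 < (D.oz v w u : ℝ) * ori (D.Q v q.1) (D.Q w q.2.1) (D.Q u q.2.2) := by
  rw [eventually_all]; intro v
  rw [eventually_all]; intro w
  rw [eventually_all]; intro u
  by_cases h1 : v ≠ w ∧ u ≠ v ∧ u ≠ w
  · have hc : Continuous (fun q : ℝ × ℝ × ℝ =>
        (D.oz v w u : ℝ) * ori (D.Q v q.1) (D.Q w q.2.1) (D.Q u q.2.2)) := by
      simp only [ori, Q]
      fun_prop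
    have h0 : (0 : ℝ) < (D.oz v w u : ℝ) *
        ori (D.Q v (0 : ℝ × ℝ × ℝ).1) (D.Q w (0 : ℝ × ℝ × ℝ).2.1)
          (D.Q u (0 : ℝ × ℝ × ℝ).2.2) := by
      have e : ori (D.Q v (0 : ℝ × ℝ × ℝ).1) (D.Q w (0 : ℝ × ℝ × ℝ).2.1)
          (D.Q u (0 : ℝ × ℝ × ℝ).2.2) = (D.oz v w u : ℝ) := by
        simp only [ori, Q, oz, Prod.fst_zero, Prod.snd_zero]
        push_cast
        ring
      rw [e]
      have := h.base v w u h1.1 h1.2.1 h1.2.2
      have h2 : (D.oz v w u : ℝ) ≠ 0 := by exact_mod_cast this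
      exact mul_self_pos.mpr h2
    exact (hc.continuousAt.eventually (lt_mem_nhds h0)).mono (fun q hq _ _ _ => hq)
  · exact Eventually.of_forall (fun q a b c => absurd ⟨a, b, c⟩ h1)

lemma ev2 (h : D.Ok) : ∀ᶠ q : ℝ × ℝ × ℝ in 𝓝 0, ∀ v w, v ≠ w →
    0 < (D.sz v w : ℝ) * D.sf v w q := by
  rw [eventually_all]; intro v
  rw [eventually_all]; intro w
  by_cases h1 : v ≠ w
  · have hc : Continuous (fun q : ℝ × ℝ × ℝ => (D.sz v w : ℝ) * D.sf v w q) := by
      simp only [sf, Q]
      fun_prop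
    have h0 : (0 : ℝ) < (D.sz v w : ℝ) * D.sf v w 0 := by
      have e : D.sf v w 0 = (D.sz v w : ℝ) := by
        simp only [sf, Q, sz, Prod.fst_zero, Prod.snd_zero]
        push_cast
        ring
      rw [e]
      have := h.dir v w h1
      have h2 : (D.sz v w : ℝ) ≠ 0 := by exact_mod_cast this
      exact mul_self_pos.mpr h2
    exact (hc.continuousAt.eventually (lt_mem_nhds h0)).mono (fun q hq _ => hq)
  · exact Eventually.of_forall (fun q a => absurd a h1)

/-- a good placement of the blown-up vertices -/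
structure Good (D : Data m) {t : ℕ} (P : Fin m × Fin t → ℂ) : Prop where
  one : ∀ v w u i j k, v ≠ w → u ≠ v → u ≠ w →
    0 < (D.oz v w u : ℝ) * ori (P (v, i)) (P (w, j)) (P (u, k))
  two : ∀ v w i j k, v ≠ w → i < j → 0 < (D.sz v w : ℝ) * ori (P (v, i)) (P (v, j)) (P (w, k))
  three : ∀ v i j k, i < j → j < k → 0 < ori (P (v, i)) (P (v, j)) (P (v, k))

theorem exists_good (h : D.Ok) (hm : 2 ≤ m) (t : ℕ) :
    ∃ P : Fin m × Fin t → ℂ, Good D P := by
  obtain ⟨δ, hδ, hδ'⟩ := Metric.eventually_nhds_iff.mp ((ev1 h).and (ev2 h))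
  let ε : ℝ := δ / (t + 1)
  have ht : (0 : ℝ) < t + 1 := by positivity
  have hε : 0 < ε := div_pos hδ ht
  have hx : ∀ i : Fin t, |ε * ((i : ℕ) : ℝ)| < δ := by
    intro i
    rw [abs_of_nonneg (by positivity)]
    have hi : ((i : ℕ) : ℝ) < t := by exact_mod_cast i.2
    calc ε * ((i : ℕ) : ℝ) < ε * (t + 1) := by nlinarith
      _ = δ := by simp only [ε]; field_simp
  have hd : ∀ i j k : Fin t, dist ((ε * ((i : ℕ) : ℝ), ε * ((j : ℕ) : ℝ), ε * ((k : ℕ) : ℝ)) :
      ℝ × ℝ × ℝ) 0 < δ := by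
    intro i j k
    rw [Prod.dist_eq, Prod.dist_eq, Prod.fst_zero, Prod.snd_zero, Prod.fst_zero, Prod.snd_zero,
      Real.dist_eq, Real.dist_eq, Real.dist_eq, sub_zero, sub_zero, sub_zero]
    exact max_lt (hx i) (max_lt (hx j) (hx k))
  have hlt : ∀ i j : Fin t, i < j → ε * ((i : ℕ) : ℝ) < ε * ((j : ℕ) : ℝ) := by
    intro i j hij
    have : ((i : ℕ) : ℝ) < ((j : ℕ) : ℝ) := by exact_mod_cast hij
    exact mul_lt_mul_of_pos_left this hε
  refine ⟨fun a => D.Q a.1 (ε * ((a.2 : ℕ) : ℝ)), ?_, ?_, ?_⟩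
  · intro v w u i j k h1 h2 h3
    exact (hδ' (hd i j k)).1 v w u h1 h2 h3
  · intro v w i j k h1 hij
    have := (hδ' (hd i j k)).2 v w h1
    rw [ori_two]
    have h2 := hlt i j hij
    have h3 : 0 < ε * ((j : ℕ) : ℝ) - ε * ((i : ℕ) : ℝ) := by linarith
    have e : (D.sz v w : ℝ) * ((ε * ((j : ℕ) : ℝ) - ε * ((i : ℕ) : ℝ)) *
        D.sf v w (ε * ((i : ℕ) : ℝ), ε * ((j : ℕ) : ℝ), ε * ((k : ℕ) : ℝ))) =
        (ε * ((j : ℕ) : ℝ) - ε * ((i : ℕ) : ℝ)) * ((D.sz v w : ℝ) *
        D.sf v w (ε * ((i : ℕ) : ℝ), ε * ((j : ℕ) : ℝ), ε * ((k : ℕ) : ℝ))) := by ring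
    rw [e]
    exact mul_pos h3 this
  · intro v i j k hij hjk
    rw [ori_three]
    have a1 := hlt i j hij
    have a2 := hlt j k hjk
    have a3 : 0 < (D.dx v : ℝ) ^ 2 + (D.dy v : ℝ) ^ 2 := by
      obtain ⟨w, hw⟩ : ∃ w : Fin m, v ≠ w := by
        by_cases hv : v = ⟨0, by omega⟩
        · exact ⟨⟨1, by omega⟩, by rw [hv]; simp [Fin.ext_iff]⟩
        · exact ⟨⟨0, by omega⟩, hv⟩
      have h1 := h.dir v w hw
      by_contra hc
      push Not at hc
      have b1 : (D.dx v : ℝ) ^ 2 = 0 := by nlinarith [sq_nonneg (D.dx v : ℝ), sq_nonneg (D.dy v : ℝ)]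
      have b2 : (D.dy v : ℝ) ^ 2 = 0 := by nlinarith [sq_nonneg (D.dx v : ℝ), sq_nonneg (D.dy v : ℝ)]
      have c1 : D.dx v = 0 := by exact_mod_cast pow_eq_zero_iff (two_ne_zero) |>.mp b1
      have c2 : D.dy v = 0 := by exact_mod_cast pow_eq_zero_iff (two_ne_zero) |>.mp b2
      apply h1
      simp [sz, c1, c2]
    have := mul_pos (mul_pos (mul_pos (sub_pos.mpr a1) (sub_pos.mpr (a1.trans a2)))
      (sub_pos.mpr a2)) a3
    exact this

variable {t : ℕ} {P : Fin m × Fin t → ℂ}

lemma Good.ne_two (hP : Good D P) (v w : Fin m) (i j k : Fin t) (h1 : v ≠ w)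
    (hij : i ≠ j) : ori (P (v, i)) (P (v, j)) (P (w, k)) ≠ 0 := by
  rcases lt_or_gt_of_ne hij with hlt | hlt
  · intro h0
    have := hP.two v w i j k h1 hlt
    rw [h0, mul_zero] at this
    exact lt_irrefl _ this
  · intro h0
    have := hP.two v w j i k h1 hlt
    rw [ori_swap, h0, neg_zero, mul_zero] at this
    exact lt_irrefl _ this

lemma Good.ne_three (hP : Good D P) (v : Fin m) (i j k : Fin t)
    (hij : i ≠ j) (hik : i ≠ k) (hjk : j ≠ k) : ori (P (v, i)) (P (v, j)) (P (v, k)) ≠ 0 := by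
  intro h0
  rcases lt_or_gt_of_ne hij with a | a <;> rcases lt_or_gt_of_ne hjk with b | b <;>
    rcases lt_or_gt_of_ne hik with c | c
  · exact (hP.three v i j k a b).ne' h0
  · exact absurd (a.trans b) (not_lt.mpr c.le)
  · have := hP.three v i k j c b
    rw [ori_swap', h0, neg_zero] at this
    exact lt_irrefl _ this
  · have := hP.three v k i j c a
    rw [← ori_rot, h0] at this
    exact lt_irrefl _ this
  · have := hP.three v j i k a c
    rw [ori_swap, h0, neg_zero] at this
    exact lt_irrefl _ this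
  · have := hP.three v j k i b c
    rw [ori_rot, h0] at this
    exact lt_irrefl _ this
  · exact absurd (b.trans a) (not_lt.mpr c.le)
  · have := hP.three v k j i b a
    rw [ori_swap, ori_rot, h0, neg_zero] at this
    exact lt_irrefl _ this

theorem Good.genPos (hm : 3 ≤ m) (hP : Good D P) : GenPos P := by
  have gen : ∀ a b c, a ≠ b → c ≠ a → c ≠ b → ori (P a) (P b) (P c) ≠ 0 := by
    rintro ⟨v, i⟩ ⟨w, j⟩ ⟨u, k⟩ hab hca hcb
    by_cases h1 : v = w
    · subst h1
      have hij : i ≠ j := fun hh => hab (by rw [hh])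
      by_cases h2 : v = u
      · subst h2
        exact hP.ne_three v i j k hij (fun hh => hca (by rw [hh])) (fun hh => hcb (by rw [hh]))
      · exact hP.ne_two v u i j k h2 hij
    · by_cases h2 : v = u
      · subst h2
        rw [ori_swap', neg_ne_zero]
        exact hP.ne_two v w i k j h1 (fun hh => hca (by rw [hh]))
      · by_cases h3 : w = u
        · subst h3
          rw [← ori_rot]
          exact hP.ne_two w v j k i (Ne.symm h1) (fun hh => hcb (by rw [hh]))
        · intro h0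
          have := hP.one v w u i j k h1 (Ne.symm h2) (Ne.symm h3)
          rw [h0, mul_zero] at this
          exact lt_irrefl _ this
  refine ⟨?_, gen⟩
  rintro ⟨v, i⟩ ⟨w, j⟩ hvw
  by_contra hne
  obtain ⟨u, hu1, hu2⟩ : ∃ u : Fin m, u ≠ v ∧ u ≠ w := by
    by_contra hc
    push Not at hc
    have h0 : (Finset.univ : Finset (Fin m)) ⊆ {v, w} := by
      intro x _
      rw [Finset.mem_insert, Finset.mem_singleton]
      by_cases hx : x = v
      · exact Or.inl hx
      · exact Or.inr (hc x hx)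
    have := Finset.card_le_card h0
    rw [Finset.card_univ, Fintype.card_fin] at this
    have h2 := Finset.card_le_two (a := v) (b := w)
    omega
  apply gen (v, i) (w, j) (u, i) hne (fun hh => hu1 (congrArg Prod.fst hh))
    (fun hh => hu2 (congrArg Prod.fst hh))
  rw [hvw]
  simp [ori]

/-- the sign attached to a Boolean -/
def sg (b : Bool) : ℝ := if b then 1 else -1

lemma Good.sorted (h : D.Ok) (hP : Good D P) (a b c : Fin m × Fin t)
    (hij : a.2 < b.2) (hjk : b.2 < c.2) :
    0 < sg (D.o a.1 b.1 c.1) * ori (P a) (P b) (P c) := by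
  obtain ⟨v, i⟩ := a
  obtain ⟨w, j⟩ := b
  obtain ⟨u, k⟩ := c
  simp only at hij hjk ⊢
  unfold o
  by_cases h1 : v = w
  · subst h1
    rw [if_pos rfl]
    by_cases h2 : v = u
    · subst h2
      rw [if_pos rfl, sg, if_pos rfl, one_mul]
      exact hP.three v i j k hij hjk
    · rw [if_neg h2]
      have h3 := hP.two v u i j k h2 hij
      have h4 := h.dir v u h2
      rcases lt_or_gt_of_ne h4 with h5 | h5
      · rw [decide_eq_false (by omega)]
        have h6 : (D.sz v u : ℝ) < 0 := by exact_mod_cast h5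
        simp only [sg, Bool.false_eq_true, if_false]
        nlinarith
      · rw [decide_eq_true h5]
        have h6 : 0 < (D.sz v u : ℝ) := by exact_mod_cast h5
        simp only [sg, if_true]
        nlinarith
  · rw [if_neg h1]
    by_cases h2 : v = u
    · subst h2
      rw [if_pos rfl]
      have h3 := hP.two v w i k j h1 (hij.trans hjk)
      rw [ori_swap'] at h3
      have h4 := h.dir v w h1
      rcases lt_or_gt_of_ne h4 with h5 | h5
      · rw [decide_eq_true h5]
        have h6 : (D.sz v w : ℝ) < 0 := by exact_mod_cast h5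
        simp only [sg, if_true]
        nlinarith
      · rw [decide_eq_false (by omega)]
        have h6 : 0 < (D.sz v w : ℝ) := by exact_mod_cast h5
        simp only [sg, Bool.false_eq_true, if_false]
        nlinarith
    · rw [if_neg h2]
      by_cases h3 : w = u
      · subst h3
        rw [if_pos rfl]
        have h3 := hP.two w v j k i (Ne.symm h1) hjk
        rw [ori_rot] at h3
        have h4 := h.dir w v (Ne.symm h1)
        rcases lt_or_gt_of_ne h4 with h5 | h5
        · rw [decide_eq_false (by omega)]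
          have h6 : (D.sz w v : ℝ) < 0 := by exact_mod_cast h5
          simp only [sg, Bool.false_eq_true, if_false]
          nlinarith
        · rw [decide_eq_true h5]
          have h6 : 0 < (D.sz w v : ℝ) := by exact_mod_cast h5
          simp only [sg, if_true]
          nlinarith
      · rw [if_neg h3]
        have h7 := hP.one v w u i j k h1 (Ne.symm h2) (Ne.symm h3)
        have h4 := h.base v w u h1 (Ne.symm h2) (Ne.symm h3)
        rcases lt_or_gt_of_ne h4 with h5 | h5
        · rw [decide_eq_false (by omega)]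
          have h6 : (D.oz v w u : ℝ) < 0 := by exact_mod_cast h5
          simp only [sg, Bool.false_eq_true, if_false]
          nlinarith
        · rw [decide_eq_true h5]
          have h6 : 0 < (D.oz v w u : ℝ) := by exact_mod_cast h5
          simp only [sg, if_true]
          nlinarith

lemma ne_of_neg {b b' : Bool} {x y : ℝ} (h1 : 0 < sg b * x) (h2 : 0 < sg b' * y)
    (h : x * y < 0) : b ≠ b' := by
  rintro rfl
  cases b
  · simp only [sg, Bool.false_eq_true, if_false] at h1 h2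
    nlinarith
  · simp only [sg, if_true] at h1 h2
    nlinarith

lemma eq_of_neg {b b' : Bool} {x y : ℝ} (h1 : 0 < sg b * x) (h2 : 0 < sg b' * y)
    (h : (-x) * y < 0) : b = b' := by
  cases b <;> cases b'
  · rfl
  · simp only [sg, Bool.false_eq_true, if_false, if_true] at h1 h2
    nlinarith
  · simp only [sg, Bool.false_eq_true, if_false, if_true] at h1 h2
    nlinarith
  · rfl

end Data

open Data

/-- The part of the complete graph on `Fin m × Fin t` whose edges have colour `p`. -/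
def part {m : ℕ} (t : ℕ) (col : Fin m → Fin m → Bool) (hcol : ∀ v w, col v w = col w v)
    (p : Bool) : SimpleGraph (Fin m × Fin t) where
  Adj x y := x ≠ y ∧ col x.1 y.1 = p
  symm := ⟨fun _ _ h => ⟨h.1.symm, by rw [hcol]; exact h.2⟩⟩
  loopless := ⟨fun _ h => h.1 rfl⟩

/-- strictly increasing quadruples -/
def inc (t : ℕ) : Finset (Fin t × Fin t × Fin t × Fin t) :=
  Finset.univ.filter (fun q => q.1 < q.2.1 ∧ q.2.1 < q.2.2.1 ∧ q.2.2.1 < q.2.2.2)

lemma card_inc (t : ℕ) : (inc t).card ≤ t.choose 4 := by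
  classical
  have h : (inc t).card ≤ (Finset.powersetCard 4 (Finset.univ : Finset (Fin t))).card := by
    apply Finset.card_le_card_of_injOn (fun q => {q.1, q.2.1, q.2.2.1, q.2.2.2})
    · rintro ⟨a, b, c, d⟩ hq
      rw [Finset.mem_coe, inc, Finset.mem_filter] at hq
      obtain ⟨-, h1, h2, h3⟩ := hq
      rw [Finset.mem_coe, Finset.mem_powersetCard]
      refine ⟨Finset.subset_univ _, ?_⟩
      simp only at h1 h2 h3 ⊢
      rw [Finset.card_insert_of_notMem, Finset.card_insert_of_notMem,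
        Finset.card_insert_of_notMem, Finset.card_singleton]
      · simp only [Finset.mem_singleton]; exact h3.ne
      · simp only [Finset.mem_insert, Finset.mem_singleton, not_or]
        exact ⟨h2.ne, (h2.trans h3).ne⟩
      · simp only [Finset.mem_insert, Finset.mem_singleton, not_or]
        exact ⟨h1.ne, (h1.trans h2).ne, (h1.trans (h2.trans h3)).ne⟩
    · rintro ⟨a, b, c, d⟩ hq ⟨a', b', c', d'⟩ hq' heq
      rw [Finset.mem_coe, inc, Finset.mem_filter] at hq hq'
      obtain ⟨-, h1, h2, h3⟩ := hq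
      obtain ⟨-, h1', h2', h3'⟩ := hq'
      simp only at heq h1 h2 h3 h1' h2' h3'
      have m1 : a' ∈ ({a, b, c, d} : Finset (Fin t)) := by rw [heq]; simp
      have m2 : b' ∈ ({a, b, c, d} : Finset (Fin t)) := by rw [heq]; simp
      have m3 : c' ∈ ({a, b, c, d} : Finset (Fin t)) := by rw [heq]; simp
      have m4 : d' ∈ ({a, b, c, d} : Finset (Fin t)) := by rw [heq]; simp
      simp only [Finset.mem_insert, Finset.mem_singleton, Fin.ext_iff] at m1 m2 m3 m4
      simp only [Fin.lt_def] at h1 h2 h3 h1' h2' h3'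
      simp only [Prod.mk.injEq, Fin.ext_iff]
      omega
  rw [Finset.card_powersetCard, Finset.card_univ, Fintype.card_fin] at h
  exact h

/-- quadruples of clusters -/
abbrev Q4 (m : ℕ) : Type := Fin m × Fin m × Fin m × Fin m

/-- quadruples whose pairing 01|23 crosses in the plane `p` -/
def T0 {m : ℕ} (D : Data m) (col : Fin m → Fin m → Bool) (p : Bool) : Finset (Q4 m) :=
  Finset.univ.filter (fun τ => col τ.1 τ.2.1 = p ∧ col τ.2.2.1 τ.2.2.2 = p ∧
    D.o τ.1 τ.2.1 τ.2.2.1 ≠ D.o τ.1 τ.2.1 τ.2.2.2 ∧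
    D.o τ.1 τ.2.2.1 τ.2.2.2 ≠ D.o τ.2.1 τ.2.2.1 τ.2.2.2)

/-- quadruples whose pairing 02|13 crosses in the plane `p` -/
def T1 {m : ℕ} (D : Data m) (col : Fin m → Fin m → Bool) (p : Bool) : Finset (Q4 m) :=
  Finset.univ.filter (fun τ => col τ.1 τ.2.2.1 = p ∧ col τ.2.1 τ.2.2.2 = p ∧
    D.o τ.1 τ.2.1 τ.2.2.1 = D.o τ.1 τ.2.2.1 τ.2.2.2 ∧
    D.o τ.1 τ.2.1 τ.2.2.2 = D.o τ.2.1 τ.2.2.1 τ.2.2.2)

/-- quadruples whose pairing 03|12 crosses in the plane `p` -/
def T2 {m : ℕ} (D : Data m) (col : Fin m → Fin m → Bool) (p : Bool) : Finset (Q4 m) :=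
  Finset.univ.filter (fun τ => col τ.1 τ.2.2.2 = p ∧ col τ.2.1 τ.2.2.1 = p ∧
    D.o τ.1 τ.2.1 τ.2.2.2 ≠ D.o τ.1 τ.2.2.1 τ.2.2.2 ∧
    D.o τ.1 τ.2.1 τ.2.2.1 ≠ D.o τ.2.1 τ.2.2.1 τ.2.2.2)

section Main

variable {m : ℕ} (D : Data m) (col : Fin m → Fin m → Bool) (p : Bool) (t : ℕ)

/-- candidate crossing pairs -/
def S0 : Finset (Sym2 (Sym2 (Fin m × Fin t))) :=
  (inc t ×ˢ T0 D col p).image (fun x =>
    s(s((x.2.1, x.1.1), (x.2.2.1, x.1.2.1)), s((x.2.2.2.1, x.1.2.2.1), (x.2.2.2.2, x.1.2.2.2))))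

/-- candidate crossing pairs -/
def S1 : Finset (Sym2 (Sym2 (Fin m × Fin t))) :=
  (inc t ×ˢ T1 D col p).image (fun x =>
    s(s((x.2.1, x.1.1), (x.2.2.2.1, x.1.2.2.1)), s((x.2.2.1, x.1.2.1), (x.2.2.2.2, x.1.2.2.2))))

/-- candidate crossing pairs -/
def S2 : Finset (Sym2 (Sym2 (Fin m × Fin t))) :=
  (inc t ×ˢ T2 D col p).image (fun x =>
    s(s((x.2.1, x.1.1), (x.2.2.2.2, x.1.2.2.2)), s((x.2.2.1, x.1.2.1), (x.2.2.2.1, x.1.2.2.1))))

/-- pairs with a repeated index -/
def S3 (m t : ℕ) : Finset (Sym2 (Sym2 (Fin m × Fin t))) :=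
  (Finset.univ : Finset ((Fin t × Fin t × Fin t) × Q4 m)).image (fun x =>
    s(s((x.2.1, x.1.1), (x.2.2.1, x.1.1)), s((x.2.2.2.1, x.1.2.1), (x.2.2.2.2, x.1.2.2))))

/-- pairs with a repeated index -/
def S4 (m t : ℕ) : Finset (Sym2 (Sym2 (Fin m × Fin t))) :=
  (Finset.univ : Finset ((Fin t × Fin t × Fin t) × Q4 m)).image (fun x =>
    s(s((x.2.1, x.1.1), (x.2.2.1, x.1.2.1)), s((x.2.2.2.1, x.1.1), (x.2.2.2.2, x.1.2.2))))

lemma mem_S3 (a b c d : Fin m × Fin t) (h : a.2 = b.2) : s(s(a, b), s(c, d)) ∈ S3 m t := by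
  refine Finset.mem_image.mpr ⟨((a.2, c.2, d.2), (a.1, b.1, c.1, d.1)), Finset.mem_univ _, ?_⟩
  simp only
  nth_rewrite 2 [h]
  rfl

lemma mem_S4 (a b c d : Fin m × Fin t) (h : a.2 = c.2) : s(s(a, b), s(c, d)) ∈ S4 m t := by
  refine Finset.mem_image.mpr ⟨((a.2, b.2, d.2), (a.1, b.1, c.1, d.1)), Finset.mem_univ _, ?_⟩
  simp only
  nth_rewrite 2 [h]
  rfl

/-- all candidates -/
def SS : Finset (Sym2 (Sym2 (Fin m × Fin t))) :=
  S0 D col p t ∪ (S1 D col p t ∪ (S2 D col p t ∪ (S3 m t ∪ S4 m t)))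

lemma card_SS : (SS D col p t).card ≤
    t.choose 4 * ((T0 D col p).card + (T1 D col p).card + (T2 D col p).card) +
      2 * (t ^ 3 * m ^ 4) := by
  have h0 : (S0 D col p t).card ≤ t.choose 4 * (T0 D col p).card := by
    refine Finset.card_image_le.trans ?_
    rw [Finset.card_product]
    exact Nat.mul_le_mul_right _ (card_inc t)
  have h1 : (S1 D col p t).card ≤ t.choose 4 * (T1 D col p).card := by
    refine Finset.card_image_le.trans ?_
    rw [Finset.card_product]
    exact Nat.mul_le_mul_right _ (card_inc t)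
  have h2 : (S2 D col p t).card ≤ t.choose 4 * (T2 D col p).card := by
    refine Finset.card_image_le.trans ?_
    rw [Finset.card_product]
    exact Nat.mul_le_mul_right _ (card_inc t)
  have hu : (Finset.univ : Finset ((Fin t × Fin t × Fin t) × Q4 m)).card = t ^ 3 * m ^ 4 := by
    simp only [Q4, Finset.card_univ, Fintype.card_prod, Fintype.card_fin]
    ring
  have h3 : (S3 m t).card ≤ t ^ 3 * m ^ 4 := by
    refine Finset.card_image_le.trans ?_
    rw [hu]
  have h4 : (S4 m t).card ≤ t ^ 3 * m ^ 4 := by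
    refine Finset.card_image_le.trans ?_
    rw [hu]
  have a0 := Finset.card_union_le (S0 D col p t) (S1 D col p t ∪ (S2 D col p t ∪ (S3 m t ∪ S4 m t)))
  have a1 := Finset.card_union_le (S1 D col p t) (S2 D col p t ∪ (S3 m t ∪ S4 m t))
  have a2 := Finset.card_union_le (S2 D col p t) (S3 m t ∪ S4 m t)
  have a3 := Finset.card_union_le (S3 m t) (S4 m t)
  unfold SS
  rw [Nat.mul_add, Nat.mul_add]
  omega

variable {D col p t}

open Data

theorem mem_SS (h : D.Ok) {P : Fin m × Fin t → ℂ} (hP : Good D P)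
    (hcol : ∀ v w, col v w = col w v) (a b c d : Fin m × Fin t)
    (hab : col a.1 b.1 = p) (hcd : col c.1 d.1 = p)
    (h1 : ori (P a) (P b) (P c) * ori (P a) (P b) (P d) < 0)
    (h2 : ori (P c) (P d) (P a) * ori (P c) (P d) (P b) < 0) :
    s(s(a, b), s(c, d)) ∈ SS D col p t := by
  by_cases e1 : a.2 = b.2
  · have := mem_S3 t a b c d e1
    simp only [SS, Finset.mem_union]; tauto
  by_cases e2 : c.2 = d.2
  · have := mem_S3 t c d a b e2
    rw [Sym2.eq_swap] at this
    simp only [SS, Finset.mem_union]; tauto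
  by_cases e3 : a.2 = c.2
  · have := mem_S4 t a b c d e3
    simp only [SS, Finset.mem_union]; tauto
  by_cases e4 : a.2 = d.2
  · have := mem_S4 t a b d c e4
    rw [Sym2.eq_swap (a := d)] at this
    simp only [SS, Finset.mem_union]; tauto
  by_cases e5 : b.2 = c.2
  · have := mem_S4 t b a c d e5
    rw [Sym2.eq_swap (a := b)] at this
    simp only [SS, Finset.mem_union]; tauto
  by_cases e6 : b.2 = d.2
  · have := mem_S4 t b a d c e6
    rw [Sym2.eq_swap (a := b), Sym2.eq_swap (a := d)] at this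
    simp only [SS, Finset.mem_union]; tauto
  wlog w1 : a.2 < b.2 generalizing a b
  · rw [Sym2.eq_swap (a := a)]
    refine this b a (by rw [hcol]; exact hab) ?_ ?_ (Ne.symm e1) e5 e6 e3 e4
      (lt_of_le_of_ne (not_lt.mp w1) (Ne.symm e1))
    · rw [ori_swap, ori_swap (P a) (P b) (P d)]; linarith
    · linarith
  wlog w2 : c.2 < d.2 generalizing c d
  · rw [Sym2.eq_swap (a := c)]
    refine this d c (by rw [hcol]; exact hcd) (Ne.symm e2) ?_ ?_ e4 e3 e6 e5
      (lt_of_le_of_ne (not_lt.mp w2) (Ne.symm e2))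
    · linarith
    · rw [ori_swap, ori_swap (P c) (P d) (P b)]; linarith
  wlog w3 : a.2 < c.2 generalizing a b c d
  · rw [Sym2.eq_swap]
    exact this (a := c) (b := d) (c := a) (d := b) (hab := hcd) (hcd := hab) (h1 := h2)
      (h2 := h1) (e1 := e2) (e2 := e1) (e3 := Ne.symm e3) (e4 := Ne.symm e5) (e5 := Ne.symm e4)
      (e6 := Ne.symm e6) (w1 := w2) (w2 := w1) (lt_of_le_of_ne (not_lt.mp w3) (Ne.symm e3))
  rcases lt_or_gt_of_ne e5 with w4 | w4
  · -- a < b < c < d
    have A := hP.sorted h a b c w1 w4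
    have B := hP.sorted h a b d w1 (w4.trans w2)
    have C := hP.sorted h a c d w3 w2
    have E := hP.sorted h b c d w4 w2
    have r1 : D.o a.1 b.1 c.1 ≠ D.o a.1 b.1 d.1 := ne_of_neg A B h1
    have r2 : D.o a.1 c.1 d.1 ≠ D.o b.1 c.1 d.1 := by
      apply ne_of_neg C E
      rw [ori_rot (P a) (P c) (P d), ori_rot (P b) (P c) (P d)] at h2
      exact h2
    have : s(s(a, b), s(c, d)) ∈ S0 D col p t := by
      refine Finset.mem_image.mpr ⟨((a.2, b.2, c.2, d.2), (a.1, b.1, c.1, d.1)), ?_, rfl⟩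
      rw [Finset.mem_product, inc, T0, Finset.mem_filter, Finset.mem_filter]
      exact ⟨⟨Finset.mem_univ _, w1, w4, w2⟩, Finset.mem_univ _, hab, hcd, r1, r2⟩
    simp only [SS, Finset.mem_union]; tauto
  · rcases lt_or_gt_of_ne e6 with w5 | w5
    · -- a < c < b < d
      have A := hP.sorted h a c b w3 w4
      have B := hP.sorted h a c d w3 w2
      have C := hP.sorted h a b d w1 w5
      have E := hP.sorted h c b d w4 w5
      have r1 : D.o a.1 c.1 b.1 = D.o a.1 b.1 d.1 := by
        apply eq_of_neg A C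
        rw [← ori_swap']
        exact h1
      have r2 : D.o a.1 c.1 d.1 = D.o c.1 b.1 d.1 := by
        apply eq_of_neg B E
        rw [ori_rot (P a) (P c) (P d), ori_swap' (P c) (P b) (P d)] at h2
        linarith
      have : s(s(a, b), s(c, d)) ∈ S1 D col p t := by
        refine Finset.mem_image.mpr ⟨((a.2, c.2, b.2, d.2), (a.1, c.1, b.1, d.1)), ?_, rfl⟩
        rw [Finset.mem_product, inc, T1, Finset.mem_filter, Finset.mem_filter]
        exact ⟨⟨Finset.mem_univ _, w3, w4, w5⟩, Finset.mem_univ _, hab, hcd, r1, r2⟩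
      simp only [SS, Finset.mem_union]; tauto
    · -- a < c < d < b
      have A := hP.sorted h a c d w3 w2
      have B := hP.sorted h a c b w3 w4
      have C := hP.sorted h a d b (w3.trans w2) w5
      have E := hP.sorted h c d b w2 w5
      have r1 : D.o a.1 c.1 b.1 ≠ D.o a.1 d.1 b.1 := by
        apply ne_of_neg B C
        rw [ori_swap', ori_swap' (P a) (P d) (P b)] at h1
        linarith
      have r2 : D.o a.1 c.1 d.1 ≠ D.o c.1 d.1 b.1 := by
        apply ne_of_neg A E
        rw [ori_rot (P a) (P c) (P d)] at h2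
        exact h2
      have : s(s(a, b), s(c, d)) ∈ S2 D col p t := by
        refine Finset.mem_image.mpr ⟨((a.2, c.2, d.2, b.2), (a.1, c.1, d.1, b.1)), ?_, rfl⟩
        rw [Finset.mem_product, inc, T2, Finset.mem_filter, Finset.mem_filter]
        exact ⟨⟨Finset.mem_univ _, w3, w2, w5⟩, Finset.mem_univ _, hab, hcd, r1, r2⟩
      simp only [SS, Finset.mem_union]; tauto

theorem crossing_part (h : D.Ok) (hm : 3 ≤ m) (hcol : ∀ v w, col v w = col w v) (p : Bool)
    (t : ℕ) : crossingNumber (part t col hcol p) ≤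
    t.choose 4 * ((T0 D col p).card + (T1 D col p).card + (T2 D col p).card) +
      2 * (t ^ 3 * m ^ 4) := by
  obtain ⟨P, hP⟩ := exists_good h (by omega) t
  have hg := hP.genPos hm
  obtain ⟨hfin, hle⟩ := ncard_le (G := part t col hcol p) hg (SS D col p t)
    (fun a b c d hab hcd _ _ _ _ _ _ h1 h2 => mem_SS h hP hcol a b c d hab.2 hcd.2 h1 h2)
  exact (crossingNumber_le _ hfin).trans (hle.trans (card_SS D col p t))

/-- The blow-up bound. -/
theorem blow {D₀ D₁ : Data m} (h₀ : D₀.Ok) (h₁ : D₁.Ok) (hm : 3 ≤ m)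
    (hcol : ∀ v w, col v w = col w v) (M : ℕ)
    (hM : ((T0 D₀ col false).card + (T1 D₀ col false).card + (T2 D₀ col false).card) +
      ((T0 D₁ col true).card + (T1 D₁ col true).card + (T2 D₁ col true).card) ≤ M) (t : ℕ) :
    biplanarCrossingNumber (⊤ : SimpleGraph (Fin m × Fin t)) ≤
      t.choose 4 * M + 4 * (t ^ 3 * m ^ 4) := by
  have h1 : biplanarCrossingNumber (⊤ : SimpleGraph (Fin m × Fin t)) ≤
      crossingNumber (part t col hcol false) + crossingNumber (part t col hcol true) := by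
    apply Nat.sInf_le
    refine ⟨part t col hcol false, part t col hcol true, ?_, ?_, rfl⟩
    · ext x y
      simp only [SimpleGraph.sup_adj, part, SimpleGraph.top_adj]
      cases col x.1 y.1 <;> simp
    · rw [disjoint_iff]
      ext x y
      simp only [SimpleGraph.inf_adj, part, SimpleGraph.bot_adj]
      cases col x.1 y.1 <;> simp
  have h2 := crossing_part h₀ hm hcol false t
  have h3 := crossing_part h₁ hm hcol true t
  have h4 := Nat.mul_le_mul_left (t.choose 4) hM
  rw [Nat.mul_add] at h4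
  omega

end Main

end Pool.Agent.Helper770.Blowup
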