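import Mathlib

set_option autoImplicit false

namespace Pool.Agent.Helper770.Crossing

/-- A drawing of a simple graph `G` in the plane (the complex numbers). The vertices are distinct
points, and every edge `e` is a simple arc, parametrised by `[0,1]`, that joins the points of its
two end-vertices and passes through no other vertex. -/
structure Drawing {V : Type*} (G : SimpleGraph V) where
  /-- the position of a vertex -/
  pos : V → ℂ
  pos_injective : Function.Injective pos
  /-- the arc of an edge, used on `[0,1]` only -/
  arc : Sym2 V → ℝ → ℂ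
  arc_continuousOn : ∀ e ∈ G.edgeSet, ContinuousOn (arc e) (Set.Icc 0 1)
  arc_injOn : ∀ e ∈ G.edgeSet, Set.InjOn (arc e) (Set.Icc 0 1)
  arc_ends : ∀ u v, G.Adj u v →
    (arc s(u, v) 0 = pos u ∧ arc s(u, v) 1 = pos v) ∨
      (arc s(u, v) 0 = pos v ∧ arc s(u, v) 1 = pos u)
  arc_avoids : ∀ e ∈ G.edgeSet, ∀ t ∈ Set.Ioo (0 : ℝ) 1, ∀ w, arc e t ≠ pos w

/-- The crossings of a drawing: an unordered pair of distinct edges together with a point that is
interior to both of their arcs. A pair of edges meeting in several interior points is counted once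
for each of these points, and a point on several edges once for each pair of them. -/
def Drawing.crossings {V : Type*} {G : SimpleGraph V} (D : Drawing G) :
    Set (Sym2 (Sym2 V) × ℂ) :=
  {x | ∃ e ∈ G.edgeSet, ∃ f ∈ G.edgeSet, e ≠ f ∧ x.1 = s(e, f) ∧
    x.2 ∈ D.arc e '' Set.Ioo (0 : ℝ) 1 ∧ x.2 ∈ D.arc f '' Set.Ioo (0 : ℝ) 1}

/-- The crossing number: the least number of crossings over all drawings in the plane with
finitely many crossings. -/
noncomputable def crossingNumber {V : Type*} (G : SimpleGraph V) : ℕ :=
  sInf {n | ∃ D : Drawing G, D.crossings.Finite ∧ D.crossings.ncard = n}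

/-- The biplanar crossing number: the least value of `cr(G₁) + cr(G₂)` over all partitions of the
edge set of `G` into the edge sets of two spanning subgraphs `G₁` and `G₂`. -/
noncomputable def biplanarCrossingNumber {V : Type*} (G : SimpleGraph V) : ℕ :=
  sInf {n | ∃ G₁ G₂ : SimpleGraph V, G₁ ⊔ G₂ = G ∧ Disjoint G₁ G₂ ∧
    n = crossingNumber G₁ + crossingNumber G₂}

/-- The `k`-dimensional hypercube: 0/1 vectors of length `k`, adjacent when they differ in exactly
one coordinate. -/
def hypercube (k : ℕ) : SimpleGraph (Fin k → Bool) where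
  Adj x y := ∃! i, x i ≠ y i
  symm := ⟨fun x y h => by
    obtain ⟨i, hi, hu⟩ := h
    exact ⟨i, hi.symm, fun j hj => hu j hj.symm⟩⟩
  loopless := ⟨fun x h => by
    obtain ⟨i, hi, -⟩ := h
    exact hi rfl⟩

end Pool.Agent.Helper770.Crossing
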