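import Pool.Agent.Helper770.Levels

set_option autoImplicit false

namespace Pool.Agent.Helper770.Cube

open Finset Pool.Agent.Helper770.Crossing Pool.Agent.Helper770.Sep
  Pool.Agent.Helper770.EdgeSep Pool.Agent.Helper770.Levels

/-- `n log₂ n` -/
noncomputable def L (n : ℕ) : ℝ := n * Real.logb 2 n

lemma L_ineq_aux (a b : ℝ) (ha : 0 < a) (hab : a ≤ b) :
    a * Real.log a + b * Real.log b + 2 * a * Real.log 2 ≤ (a + b) * Real.log (a + b) := by
  have hb : 0 < b := lt_of_lt_of_le ha hab
  have hc := Real.convexOn_mul_log
  have hsum : (1 - a / b) + a / b = 1 := by ring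
  have h0 : 0 ≤ a / b := by positivity
  have h1 : 0 ≤ 1 - a / b := by rw [sub_nonneg, div_le_one hb]; exact hab
  have hx : a ∈ Set.Ici (0 : ℝ) := ha.le
  have hy : a + b ∈ Set.Ici (0 : ℝ) := by simp; linarith
  have e1 := hc.2 hx hy h1 h0 hsum
  have e2 := hc.2 hx hy h0 h1 (by ring)
  simp only [smul_eq_mul] at e1 e2
  have f1 : (1 - a / b) * a + a / b * (a + b) = 2 * a := by field_simp; ring
  have f2 : a / b * a + (1 - a / b) * (a + b) = b := by field_simp; ring
  rw [f1, Real.log_mul (by norm_num) ha.ne'] at e1
  rw [f2] at e2
  nlinarith [e1, e2]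

lemma L_ineq (a b : ℕ) (hab : a ≤ b) : L a + L b + 2 * a ≤ L (a + b) := by
  rcases Nat.eq_zero_or_pos a with rfl | ha
  · simp [L]
  · have ha' : (0 : ℝ) < a := by exact_mod_cast ha
    have hab' : (a : ℝ) ≤ b := by exact_mod_cast hab
    have h := L_ineq_aux a b ha' hab'
    have hl2 : 0 < Real.log 2 := Real.log_pos (by norm_num)
    unfold L
    simp only [Real.logb]
    push_cast
    have : ((a : ℝ) * (Real.log a / Real.log 2) + b * (Real.log b / Real.log 2) + 2 * a) =
      (a * Real.log a + b * Real.log b + 2 * a * Real.log 2) / Real.log 2 := by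
      field_simp
    rw [this, ← mul_div_assoc]
    exact div_le_div_of_nonneg_right h hl2.le

open Classical in
/-- ordered adjacent pairs of the hypercube inside `U` -/
noncomputable def prs (k : ℕ) (U : Finset (Fin k → Bool)) :
    Finset ((Fin k → Bool) × (Fin k → Bool)) :=
  (U ×ˢ U).filter (fun p => (hypercube k).Adj p.1 p.2)

lemma mem_prs {k : ℕ} {U : Finset (Fin k → Bool)} {p : (Fin k → Bool) × (Fin k → Bool)} :
    p ∈ prs k U ↔ (p.1 ∈ U ∧ p.2 ∈ U) ∧ (hypercube k).Adj p.1 p.2 := by
  classical
  simp [prs]

/-- Edge isoperimetry in the hypercube. -/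
theorem prs_card (k : ℕ) (U : Finset (Fin k → Bool)) : ((prs k U).card : ℝ) ≤ L U.card := by
  classical
  induction k with
  | zero =>
    have h1 : prs 0 U = ∅ := by
      ext p
      simp only [mem_prs, notMem_empty, iff_false, not_and]
      rintro - ⟨i, -⟩
      exact i.elim0
    have h2 : U.card ≤ 1 := by
      have := card_le_univ U
      simpa using this
    rw [h1]
    interval_cases h : U.card <;> simp [L]
  | succ k ih =>
    let Ub : Bool → Finset (Fin k → Bool) := fun b => univ.filter (fun x => Fin.cons b x ∈ U)
    have hmem : ∀ b x, x ∈ Ub b ↔ (Fin.cons b x : Fin (k + 1) → Bool) ∈ U := by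
      intro b x; simp [Ub]
    have hcard : U.card = (Ub false).card + (Ub true).card := by
      have h1 : U = (Ub false).image (fun x => (Fin.cons false x : Fin (k+1) → Bool)) ∪
          (Ub true).image (fun x => (Fin.cons true x : Fin (k+1) → Bool)) := by
        ext u
        rw [mem_union, mem_image, mem_image]
        constructor
        · intro hu
          rcases hb : u 0 with _ | _
          · left; refine ⟨Fin.tail u, ?_, ?_⟩
            · rw [hmem, ← hb, Fin.cons_self_tail]; exact hu
            · rw [← hb, Fin.cons_self_tail]
          · right; refine ⟨Fin.tail u, ?_, ?_⟩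
            · rw [hmem, ← hb, Fin.cons_self_tail]; exact hu
            · rw [← hb, Fin.cons_self_tail]
        · rintro (⟨x, hx, rfl⟩ | ⟨x, hx, rfl⟩)
          · exact (hmem _ _).mp hx
          · exact (hmem _ _).mp hx
      have hd : Disjoint ((Ub false).image (fun x => (Fin.cons false x : Fin (k+1) → Bool)))
          ((Ub true).image (fun x => (Fin.cons true x : Fin (k+1) → Bool))) := by
        rw [disjoint_left]
        intro u hu hu'
        rw [mem_image] at hu hu'
        obtain ⟨x, -, rfl⟩ := hu
        obtain ⟨y, -, hy⟩ := hu'
        have := congrFun hy 0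
        simp at this
      have hi : ∀ b : Bool, Function.Injective
          (fun x : Fin k → Bool => (Fin.cons b x : Fin (k+1) → Bool)) :=
        fun b => Fin.cons_right_injective (α := fun _ => Bool) b
      conv_lhs => rw [h1]
      rw [card_union_of_disjoint hd, card_image_of_injective _ (hi false),
        card_image_of_injective _ (hi true)]
    have hsub : prs (k + 1) U ⊆
        (((prs k (Ub false)).image (fun p => ((Fin.cons false p.1 : Fin (k+1) → Bool),
          (Fin.cons false p.2 : Fin (k+1) → Bool)))) ∪
        ((prs k (Ub true)).image (fun p => ((Fin.cons true p.1 : Fin (k+1) → Bool),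
          (Fin.cons true p.2 : Fin (k+1) → Bool))))) ∪
        (((Ub false ∩ Ub true).image (fun x => ((Fin.cons false x : Fin (k+1) → Bool),
          (Fin.cons true x : Fin (k+1) → Bool)))) ∪
        ((Ub false ∩ Ub true).image (fun x => ((Fin.cons true x : Fin (k+1) → Bool),
          (Fin.cons false x : Fin (k+1) → Bool))))) := by
      rintro ⟨u, v⟩ huv
      rw [mem_prs] at huv
      obtain ⟨⟨hu, hv⟩, i, hi, huniq⟩ := huv
      simp only at hu hv hi huniq
      have hu' : (Fin.cons (u 0) (Fin.tail u) : Fin (k+1) → Bool) = u := Fin.cons_self_tail u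
      have hv' : (Fin.cons (v 0) (Fin.tail v) : Fin (k+1) → Bool) = v := Fin.cons_self_tail v
      by_cases h0 : u 0 = v 0
      · -- difference in the tail
        have hi0 : i ≠ 0 := fun h => hi (h ▸ h0)
        obtain ⟨j, rfl⟩ := Fin.exists_succ_eq.mpr hi0
        have hadj : (hypercube k).Adj (Fin.tail u) (Fin.tail v) := by
          refine ⟨j, hi, fun l hl => ?_⟩
          exact Fin.succ_injective _ (huniq l.succ hl)
        rw [mem_union]; left
        rw [mem_union, mem_image, mem_image]
        rcases hb : u 0 with _ | _
        · left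
          refine ⟨(Fin.tail u, Fin.tail v), mem_prs.mpr ⟨⟨?_, ?_⟩, hadj⟩, ?_⟩
          · rw [hmem, ← hb, hu']; exact hu
          · rw [hmem, ← hb, h0, hv']; exact hv
          · simp only
            rw [← hb, hu', h0, hv']
        · right
          refine ⟨(Fin.tail u, Fin.tail v), mem_prs.mpr ⟨⟨?_, ?_⟩, hadj⟩, ?_⟩
          · rw [hmem, ← hb, hu']; exact hu
          · rw [hmem, ← hb, h0, hv']; exact hv
          · simp only
            rw [← hb, hu', h0, hv']
      · have htail : Fin.tail u = Fin.tail v := by
          funext l
          by_contra hne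
          have h1 := huniq l.succ hne
          have h2 := huniq 0 h0
          rw [← h2] at h1
          exact Fin.succ_ne_zero l h1
        rw [mem_union]; right
        rw [mem_union, mem_image, mem_image]
        rcases hb : u 0 with _ | _
        · have hb' : v 0 = true := by
            rw [hb] at h0; cases hv0 : v 0
            · exact absurd hv0.symm h0
            · rfl
          left
          refine ⟨Fin.tail u, ?_, ?_⟩
          · rw [mem_inter, hmem, hmem]
            constructor
            · rw [← hb, hu']; exact hu
            · rw [← hb', htail, hv']; exact hv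
          · rw [Prod.mk.injEq]
            constructor
            · rw [← hb, hu']
            · rw [← hb', htail, hv']
        · have hb' : v 0 = false := by
            rw [hb] at h0; cases hv0 : v 0
            · rfl
            · exact absurd hv0.symm h0
          right
          refine ⟨Fin.tail u, ?_, ?_⟩
          · rw [mem_inter, hmem, hmem]
            constructor
            · rw [← hb', htail, hv']; exact hv
            · rw [← hb, hu']; exact hu
          · rw [Prod.mk.injEq]
            constructor
            · rw [← hb, hu']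
            · rw [← hb', htail, hv']
    have hle : (prs (k + 1) U).card ≤ (prs k (Ub false)).card + (prs k (Ub true)).card +
        2 * (Ub false ∩ Ub true).card := by
      refine (card_le_card hsub).trans ?_
      refine (card_union_le _ _).trans ?_
      refine (Nat.add_le_add (card_union_le _ _) (card_union_le _ _)).trans ?_
      have a1 := card_image_le (s := prs k (Ub false)) (f := (fun p =>
        ((Fin.cons false p.1 : Fin (k+1) → Bool), (Fin.cons false p.2 : Fin (k+1) → Bool))))
      have a2 := card_image_le (s := prs k (Ub true)) (f := (fun p =>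
        ((Fin.cons true p.1 : Fin (k+1) → Bool), (Fin.cons true p.2 : Fin (k+1) → Bool))))
      have a3 := card_image_le (s := Ub false ∩ Ub true) (f := (fun x =>
        ((Fin.cons false x : Fin (k+1) → Bool), (Fin.cons true x : Fin (k+1) → Bool))))
      have a4 := card_image_le (s := Ub false ∩ Ub true) (f := (fun x =>
        ((Fin.cons true x : Fin (k+1) → Bool), (Fin.cons false x : Fin (k+1) → Bool))))
      omega
    have i0 := ih (Ub false)
    have i1 := ih (Ub true)
    have hle' : ((prs (k + 1) U).card : ℝ) ≤ (prs k (Ub false)).card + (prs k (Ub true)).card +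
        2 * (Ub false ∩ Ub true).card := by exact_mod_cast hle
    rw [hcard]
    rcases le_total (Ub false).card (Ub true).card with h | h
    · have h1 : ((Ub false ∩ Ub true).card : ℝ) ≤ (Ub false).card := by
        exact_mod_cast card_le_card inter_subset_left
      have h2 := L_ineq _ _ h
      linarith
    · have h1 : ((Ub false ∩ Ub true).card : ℝ) ≤ (Ub true).card := by
        exact_mod_cast card_le_card inter_subset_right
      have h2 := L_ineq _ _ h
      rw [add_comm (Ub false).card]
      linarith

lemma L_le (n m : ℕ) (h : n ≤ 2 ^ m) : L n ≤ n * m := by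
  unfold L
  rcases Nat.eq_zero_or_pos n with rfl | hn
  · simp
  · apply mul_le_mul_of_nonneg_left _ (Nat.cast_nonneg n)
    have hn' : (0 : ℝ) < n := by exact_mod_cast hn
    rw [Real.logb_le_iff_le_rpow (by norm_num) hn']
    rw [Real.rpow_natCast]
    exact_mod_cast h

/-- A subgraph of the hypercube all of whose components are small has few edges. -/
theorem few_edges (k m : ℕ) (H : SimpleGraph (Fin k → Bool)) (hH : H ≤ hypercube k)
    (hT : ∀ T, Conn H T → T.card ≤ 2 ^ m) : 2 * (edges H).card ≤ 2 ^ k * m := by
  classical
  have h1 : 2 * (edges H).card = (univ.filter (fun p : (Fin k → Bool) × (Fin k → Bool) =>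
      H.Adj p.1 p.2)).card := by
    have e1 : (edges H) = H.edgeFinset := by
      ext e; rw [mem_edges, SimpleGraph.mem_edgeFinset]
    rw [e1, ← SimpleGraph.sum_degrees_eq_twice_card_edges]
    have : (univ.filter (fun p : (Fin k → Bool) × (Fin k → Bool) => H.Adj p.1 p.2)) =
        univ.biUnion (fun x => (H.neighborFinset x).image (fun y => (x, y))) := by
      ext ⟨x, y⟩
      simp
    rw [this, card_biUnion]
    · apply sum_congr rfl
      intro x _
      rw [card_image_of_injective _ (Prod.mk_right_injective x), SimpleGraph.card_neighborFinset_eq_degree]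
    · intro x _ y _ hxy
      rw [Function.onFun, disjoint_left]
      intro p hp hp'
      rw [mem_image] at hp hp'
      obtain ⟨a, -, rfl⟩ := hp
      obtain ⟨b, -, hb⟩ := hp'
      exact hxy (congrArg Prod.fst hb).symm
  have h2 : (univ.filter (fun p : (Fin k → Bool) × (Fin k → Bool) => H.Adj p.1 p.2)) ⊆
      (comps H).biUnion (fun U => prs k U) := by
    rintro ⟨x, y⟩ hxy
    rw [mem_filter] at hxy
    obtain ⟨U, hU, hTU⟩ := exists_comp {x} (conn_singleton H x)
    have hx : x ∈ U := hTU (mem_singleton_self x)
    rw [mem_biUnion]
    exact ⟨U, hU, mem_prs.mpr ⟨⟨hx, (mem_comps.mp hU).2 x hx y hxy.2⟩, hH hxy.2⟩⟩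
  have h3 : ∀ U ∈ comps H, ((prs k U).card : ℝ) ≤ U.card * m := fun U hU =>
    (prs_card k U).trans (L_le _ _ (hT U (mem_comps.mp hU).1))
  have h3' : ∀ U ∈ comps H, (prs k U).card ≤ U.card * m := fun U hU => by
    exact_mod_cast h3 U hU
  rw [h1]
  calc _ ≤ ((comps H).biUnion (fun U => prs k U)).card := card_le_card h2
    _ ≤ ∑ U ∈ comps H, (prs k U).card := card_biUnion_le
    _ ≤ ∑ U ∈ comps H, U.card * m := sum_le_sum h3'
    _ = (∑ U ∈ comps H, U.card) * m := by rw [sum_mul]
    _ ≤ 2 ^ k * m := by
      apply Nat.mul_le_mul_right
      have := sum_card_comps (G := H) (comps H) Subset.rfl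
      simpa using this

lemma adj_iff_update (k : ℕ) (x y : Fin k → Bool) :
    (hypercube k).Adj x y ↔ ∃ i, y = Function.update x i (! x i) := by
  constructor
  · rintro ⟨i, hi, hu⟩
    refine ⟨i, ?_⟩
    funext j
    by_cases hj : j = i
    · subst hj
      rw [Function.update_self]
      cases hx : x j <;> cases hy : y j <;> simp_all
    · rw [Function.update_of_ne hj]
      by_contra hne
      exact hj (hu j (fun h => hne h.symm))
  · rintro ⟨i, rfl⟩
    refine ⟨i, by simp, fun j hj => ?_⟩
    by_contra hne
    exact hj (by simp [Function.update_of_ne hne])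

lemma degree_eq (k : ℕ) (x : Fin k → Bool) [Fintype ((hypercube k).neighborSet x)] :
    (hypercube k).degree x = k := by
  classical
  have : (hypercube k).neighborFinset x = univ.image (fun i => Function.update x i (! x i)) := by
    ext y
    rw [SimpleGraph.mem_neighborFinset, adj_iff_update, mem_image]
    simp [eq_comm]
  rw [← SimpleGraph.card_neighborFinset_eq_degree, this, card_image_of_injective]
  · simp
  · intro i j hij
    by_contra hne
    have := congrFun hij i
    simp only [Function.update_self] at this
    rw [Function.update_of_ne hne] at this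
    simp at this

lemma edges_card (k : ℕ) : 2 * (edges (hypercube k)).card = 2 ^ k * k := by
  classical
  have e1 : (edges (hypercube k)) = (hypercube k).edgeFinset := by
    ext e; rw [mem_edges, SimpleGraph.mem_edgeFinset]
  rw [e1, ← SimpleGraph.sum_degrees_eq_twice_card_edges]
  simp [degree_eq]

lemma dg_le_of {V : Type*} [Fintype V] (G : SimpleGraph V) (v : V) (S : Finset (Sym2 V))
    (h : ∀ e ∈ G.edgeSet, v ∈ e → e ∈ S) : dg G v ≤ S.card := by
  classical
  apply card_le_card
  intro e he
  rw [mem_filter, mem_edges] at he
  exact h e he.1 he.2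

lemma dg_le (k : ℕ) (H : SimpleGraph (Fin k → Bool)) (hH : H ≤ hypercube k) (x : Fin k → Bool) :
    dg H x ≤ k := by
  classical
  have hcard : (((hypercube k).neighborFinset x).image (fun y => s(x, y))).card ≤ k := by
    refine card_image_le.trans (le_of_eq ?_)
    rw [SimpleGraph.card_neighborFinset_eq_degree, degree_eq]
  refine le_trans (dg_le_of H x _ ?_) hcard
  intro e he hx
  obtain ⟨y, rfl⟩ := Sym2.mem_iff_exists.mp hx
  rw [mem_image]
  exact ⟨y, by rw [SimpleGraph.mem_neighborFinset]; exact hH he, rfl⟩

end Pool.Agent.Helper770.Cube
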