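import Pool.Agent.Helper770.Planar

set_option autoImplicit false

namespace Pool.Agent.Helper770.EdgeSep

open Finset Pool.Agent.Helper770.Crossing Pool.Agent.Helper770.Sep Pool.Agent.Helper770.Planar

variable {V : Type*} [Fintype V] {G : SimpleGraph V}

open Classical in
/-- the edge set as a finset -/
noncomputable def edges (G : SimpleGraph V) : Finset (Sym2 V) := univ.filter (· ∈ G.edgeSet)

omit [Fintype V] in
lemma mem_edges [Fintype V] {e : Sym2 V} : e ∈ edges G ↔ e ∈ G.edgeSet := by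
  classical
  simp [edges]

open Classical in
/-- degree -/
noncomputable def dg (G : SimpleGraph V) (v : V) : ℕ := ((edges G).filter (v ∈ ·)).card

open Classical in
/-- edges through a point -/
noncomputable def thr (D : Drawing G) (z : ℂ) : Finset (Sym2 V) :=
  (edges G).filter (fun e => ∃ t ∈ Set.Icc (0 : ℝ) 1, D.arc e t = z)

omit [Fintype V] in
lemma mem_thr [Fintype V] {D : Drawing G} {z : ℂ} {e : Sym2 V} :
    e ∈ thr D z ↔ e ∈ G.edgeSet ∧ ∃ t ∈ Set.Icc (0 : ℝ) 1, D.arc e t = z := by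
  classical
  simp [thr, mem_edges]

omit [Fintype V] in
lemma end_pos (D : Drawing G) (e : Sym2 V) (he : e ∈ G.edgeSet) (t : ℝ) (ht : t = 0 ∨ t = 1) :
    ∃ v ∈ e, D.arc e t = D.pos v := by
  induction e with
  | _ u v =>
    rcases D.arc_ends u v he with h | h <;> rcases ht with rfl | rfl
    · exact ⟨u, by simp, h.1⟩
    · exact ⟨v, by simp, h.2⟩
    · exact ⟨v, by simp, h.1⟩
    · exact ⟨u, by simp, h.2⟩

omit [Fintype V] in
lemma pos_mem (D : Drawing G) (e : Sym2 V) (he : e ∈ G.edgeSet) (v : V) (hv : v ∈ e) :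
    ∃ t ∈ Set.Icc (0 : ℝ) 1, D.arc e t = D.pos v := by
  induction e with
  | _ x y =>
    rw [Sym2.mem_iff] at hv
    rcases D.arc_ends x y he with h | h <;> rcases hv with rfl | rfl
    · exact ⟨0, by simp, h.1⟩
    · exact ⟨1, by simp, h.2⟩
    · exact ⟨1, by simp, h.2⟩
    · exact ⟨0, by simp, h.1⟩

lemma thr_pos_card (D : Drawing G) (v : V) : (thr D (D.pos v)).card ≤ dg G v := by
  classical
  apply card_le_card
  intro e he
  obtain ⟨he, t, ht, hz⟩ := mem_thr.mp he
  rw [mem_filter, mem_edges]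
  refine ⟨he, ?_⟩
  by_cases h0 : t = 0 ∨ t = 1
  · obtain ⟨w, hw, hwt⟩ := end_pos D e he t h0
    rw [D.pos_injective (hz.symm.trans hwt)]
    exact hw
  · push Not at h0
    exact absurd hz (D.arc_avoids e he t
      ⟨lt_of_le_of_ne ht.1 (Ne.symm h0.1), lt_of_le_of_ne ht.2 h0.2⟩ v)

lemma thr_cross_card (D : Drawing G) (hfin : D.crossings.Finite) (z : ℂ)
    (hz : ∀ v, D.pos v ≠ z) (hcr : ∃ x ∈ D.crossings, x.2 = z) :
    (thr D z).card ^ 2 ≤ 4 * (by classical exact (hfin.toFinset.filter (fun x => x.2 = z)).card) := by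
  classical
  -- at least two edges
  have hint : ∀ e ∈ thr D z, z ∈ D.arc e '' Set.Ioo (0 : ℝ) 1 := by
    intro e he
    obtain ⟨he, t, ht, htz⟩ := mem_thr.mp he
    refine ⟨t, ?_, htz⟩
    have h0 : ¬ (t = 0 ∨ t = 1) := by
      intro h0
      obtain ⟨w, hw, hwt⟩ := end_pos D e he t h0
      exact hz w (hwt.symm.trans htz)
    push Not at h0
    exact ⟨lt_of_le_of_ne ht.1 (Ne.symm h0.1), lt_of_le_of_ne ht.2 h0.2⟩
  have h2 : 2 ≤ (thr D z).card := by
    obtain ⟨x, ⟨e, he, f, hf, hef, hx, ⟨t, ht, hte⟩, ⟨r, hr, hrf⟩⟩, rfl⟩ := hcr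
    have h1 : e ∈ thr D x.2 := mem_thr.mpr ⟨he, t, Set.Ioo_subset_Icc_self ht, hte⟩
    have h2 : f ∈ thr D x.2 := mem_thr.mpr ⟨hf, r, Set.Ioo_subset_Icc_self hr, hrf⟩
    have : ({e, f} : Finset (Sym2 V)) ⊆ thr D x.2 := by
      intro g hg
      rw [mem_insert, mem_singleton] at hg
      rcases hg with rfl | rfl <;> assumption
    calc 2 = ({e, f} : Finset (Sym2 V)).card := (card_pair hef).symm
      _ ≤ _ := card_le_card this
  have h3 : (thr D z).offDiag.card ≤ 2 * (hfin.toFinset.filter (fun x => x.2 = z)).card := by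
    apply card_le_mul_card_image_of_maps_to (f := fun p : Sym2 V × Sym2 V => (s(p.1, p.2), z))
    · intro p hp
      rw [mem_offDiag] at hp
      simp only [mem_filter, Set.Finite.mem_toFinset, and_true]
      exact ⟨p.1, (mem_thr.mp hp.1).1, p.2, (mem_thr.mp hp.2.1).1, hp.2.2, rfl,
        hint _ hp.1, hint _ hp.2.1⟩
    · intro b _
      rcases ((thr D z).offDiag.filter (fun a => (s(a.1, a.2), z) = b)).eq_empty_or_nonempty with
        h | ⟨⟨e, f⟩, hef⟩
      · rw [h]; simp
      · have : ((thr D z).offDiag.filter (fun a => (s(a.1, a.2), z) = b)) ⊆ {(e, f), (f, e)} := by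
          intro a ha
          rw [mem_filter] at ha hef
          have := (ha.2.trans hef.2.symm)
          simp only [Prod.mk.injEq, and_true] at this
          rw [mem_insert, mem_singleton]
          rcases Sym2.eq_iff.mp this with h | h
          · left; exact Prod.ext h.1 h.2
          · right; exact Prod.ext h.1 h.2
        exact (card_le_card this).trans card_le_two
  rw [offDiag_card] at h3
  set m := (thr D z).card
  have h4 : 2 * m ≤ m * m := Nat.mul_le_mul_right m h2
  have h5 : m ^ 2 = m * m := sq m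
  rw [h5]
  omega

lemma sum_fiber_le {α β : Type*} [DecidableEq β] (s : Finset α) (t : Finset β) (f : α → β) :
    ∑ b ∈ t, (s.filter (fun a => f a = b)).card ≤ s.card := by
  classical
  rw [← card_biUnion]
  · apply card_le_card
    intro a ha
    rw [mem_biUnion] at ha
    obtain ⟨b, -, hb⟩ := ha
    exact (mem_filter.mp hb).1
  · intro b _ b' _ hbb
    rw [Function.onFun, disjoint_left]
    intro a ha ha'
    exact hbb ((mem_filter.mp ha).2.symm.trans (mem_filter.mp ha').2)

lemma cost_sum (D : Drawing G) (hfin : D.crossings.Finite) (N : Finset ℂ)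
    (hN : ∀ z, z ∈ N ↔ (∃ v, D.pos v = z) ∨ ∃ x ∈ D.crossings, x.2 = z) :
    ∑ z ∈ N, (thr D z).card ^ 2 ≤ ∑ v, dg G v ^ 2 + 4 * D.crossings.ncard := by
  classical
  rw [← sum_filter_add_sum_filter_not N (fun z => ∃ v, D.pos v = z)]
  apply Nat.add_le_add
  · have : N.filter (fun z => ∃ v, D.pos v = z) = univ.image D.pos := by
      ext z
      simp only [mem_filter, mem_image, mem_univ, true_and]
      constructor
      · exact fun h => h.2
      · exact fun h => ⟨(hN z).mpr (Or.inl h), h⟩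
    rw [this, sum_image (fun x _ y _ h => D.pos_injective h)]
    apply sum_le_sum
    intro v _
    exact Nat.pow_le_pow_left (thr_pos_card D v) 2
  · calc ∑ z ∈ N.filter (fun z => ¬ ∃ v, D.pos v = z), (thr D z).card ^ 2
        ≤ ∑ z ∈ N.filter (fun z => ¬ ∃ v, D.pos v = z),
            4 * (hfin.toFinset.filter (fun x => x.2 = z)).card := by
          apply sum_le_sum
          intro z hz
          rw [mem_filter] at hz
          have hno : ∀ v, D.pos v ≠ z := fun v hv => hz.2 ⟨v, hv⟩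
          exact thr_cross_card D hfin z hno (((hN z).mp hz.1).resolve_left hz.2)
      _ = 4 * ∑ z ∈ N.filter (fun z => ¬ ∃ v, D.pos v = z),
            (hfin.toFinset.filter (fun x => x.2 = z)).card := by rw [mul_sum]
      _ ≤ 4 * hfin.toFinset.card := by
          apply Nat.mul_le_mul_left
          exact sum_fiber_le hfin.toFinset _ Prod.snd
      _ = 4 * D.crossings.ncard := by rw [Set.ncard_eq_toFinset_card _ hfin]

/-- Edge separator for a drawn graph. -/
theorem edge_separator (D : Drawing G) (hfin : D.crossings.Finite) (U : Finset V) (R : ℕ)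
    (hR : 0 < R) (hRW : 5 * (∑ v, dg G v ^ 2 + 4 * D.crossings.ncard) ≤ R ^ 2) :
    ∃ F ⊆ edges G, F.card ≤ 5 * R ∧ ∀ T : Finset V, Conn (G.deleteEdges (F : Set (Sym2 V))) T →
      2 ≤ T.card → 2 * (by classical exact (T ∩ U).card) ≤ U.card := by
  classical
  let N : Finset ℂ := univ.image D.pos ∪ hfin.toFinset.image Prod.snd
  have hN : ∀ z, z ∈ N ↔ (∃ v, D.pos v = z) ∨ ∃ x ∈ D.crossings, x.2 = z := by
    intro z; simp [N]
  have hpos : ∀ v, D.pos v ∈ N := fun v => (hN _).mpr (Or.inl ⟨v, rfl⟩)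
  have hcr : ∀ x ∈ D.crossings, x.2 ∈ N := fun x hx => (hN _).mpr (Or.inr ⟨x, hx, rfl⟩)
  have hcost : 5 * ∑ z : N, (thr D (z : ℂ)).card ^ 2 ≤ R ^ 2 := by
    refine le_trans (Nat.mul_le_mul_left 5 ?_) hRW
    rw [sum_coe_sort N (fun z => (thr D z).card ^ 2)]
    exact cost_sum D hfin N hN
  obtain ⟨S, hSc, hS⟩ := separator (planar D N) (noK5 D N hcr) (fun z => (thr D (z : ℂ)).card)
    (fun z => (U.filter (fun v => D.pos v = z)).card) R hR hcost
  refine ⟨S.biUnion (fun z => thr D (z : ℂ)), ?_, ?_, ?_⟩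
  · intro e he
    rw [mem_biUnion] at he
    obtain ⟨z, -, he⟩ := he
    exact mem_edges.mpr (mem_thr.mp he).1
  · exact card_biUnion_le.trans hSc
  · intro T hT hT2
    set F := S.biUnion (fun z => thr D (z : ℂ)) with hF
    -- nodes on the surviving edges inside `T`
    obtain ⟨T', hT'⟩ : ∃ T' : Finset N, ∀ z, z ∈ T' ↔ ∃ e ∈ G.edgeSet, e ∉ F ∧
        (∀ v ∈ e, v ∈ T) ∧ ∃ t ∈ Set.Icc (0 : ℝ) 1, D.arc e t = z :=
      ⟨univ.filter (fun z => ∃ e ∈ G.edgeSet, e ∉ F ∧
        (∀ v ∈ e, v ∈ T) ∧ ∃ t ∈ Set.Icc (0 : ℝ) 1, D.arc e t = z), fun z => by simp⟩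
    have hnbr : ∀ v ∈ T, ∃ u ∈ T, G.Adj v u ∧ s(v, u) ∉ F := by
      intro v hv
      by_contra hcon
      push Not at hcon
      have := hT.2 {v} (singleton_subset_iff.mpr hv) (singleton_nonempty v) (by
        intro x hx y hy hxy
        rw [mem_singleton] at hx
        subst hx
        rw [SimpleGraph.deleteEdges_adj] at hxy
        exact absurd (hcon y hy hxy.1) hxy.2)
      rw [← this, card_singleton] at hT2
      omega
    have hposT' : ∀ v ∈ T, (⟨D.pos v, hpos v⟩ : N) ∈ T' := by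
      intro v hv
      obtain ⟨u, hu, hvu, hF'⟩ := hnbr v hv
      refine (hT' _).mpr ⟨s(v, u), hvu, hF', ?_, pos_mem D _ hvu v (by simp)⟩
      intro w hw
      rw [Sym2.mem_iff] at hw
      rcases hw with rfl | rfl <;> assumption
    have hconn : Conn (planar D N) T' := by
      obtain ⟨v₀, hv₀⟩ := hT.1
      refine conn_of_induct ⟨_, hposT' v₀ hv₀⟩ ?_
      rintro p ⟨x, hx, hpx⟩ hs
      -- propagation along a single edge
      have hedge : ∀ e ∈ G.edgeSet, e ∉ F → (∀ v ∈ e, v ∈ T) →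
          (∃ z : N, p z ∧ ∃ t ∈ Set.Icc (0 : ℝ) 1, D.arc e t = z) →
          ∀ z : N, (∃ t ∈ Set.Icc (0 : ℝ) 1, D.arc e t = z) → p z := by
        rintro e he heF heT ⟨z, hpz, hz⟩ z' hz'
        have hc := edge_nodes_conn D N hpos e he
          (univ.filter (fun z : N => ∃ t ∈ Set.Icc (0 : ℝ) 1, D.arc e t = z)) (by simp)
        have hsub : ∀ y : N, y ∈ (univ.filter (fun z : N => ∃ t ∈ Set.Icc (0 : ℝ) 1,
            D.arc e t = z)) → y ∈ T' := by
          intro y hy
          rw [mem_filter] at hy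
          exact (hT' y).mpr ⟨e, he, heF, heT, hy.2⟩
        exact hc.induct p (x₀ := z) (by simpa using hz) hpz
          (fun a ha b hb => hs a (hsub a ha) b (hsub b hb)) z' (by simpa using hz')
      have hv : ∀ v ∈ T, p ⟨D.pos v, hpos v⟩ := by
        obtain ⟨e, he, heF, heT, hxe⟩ := (hT' x).mp hx
        obtain ⟨u, v, rfl⟩ : ∃ u v, e = s(u, v) := by
          induction e with
          | _ u v => exact ⟨u, v, rfl⟩
        have hpu : p ⟨D.pos u, hpos u⟩ :=
          hedge _ he heF heT ⟨x, hpx, hxe⟩ _ (pos_mem D _ he u (by simp))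
        refine hT.induct (fun v => p ⟨D.pos v, hpos v⟩) (heT u (by simp)) hpu ?_
        intro a ha b hb hab hpa
        rw [SimpleGraph.deleteEdges_adj] at hab
        have hab' : s(a, b) ∈ G.edgeSet := hab.1
        refine hedge s(a, b) hab' (by exact_mod_cast hab.2) ?_
          ⟨_, hpa, pos_mem D _ hab' a (by simp)⟩ _ (pos_mem D _ hab' b (by simp))
        intro w hw
        rw [Sym2.mem_iff] at hw
        rcases hw with rfl | rfl <;> assumption
      intro z hz
      obtain ⟨e, he, heF, heT, hze⟩ := (hT' z).mp hz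
      obtain ⟨u, v, rfl⟩ : ∃ u v, e = s(u, v) := by
        induction e with
        | _ u v => exact ⟨u, v, rfl⟩
      exact hedge _ he heF heT ⟨_, hv u (heT u (by simp)), pos_mem D _ he u (by simp)⟩ z hze
    have hdis : Disjoint T' S := by
      rw [disjoint_left]
      intro z hz hzS
      obtain ⟨e, he, heF, heT, hze⟩ := (hT' z).mp hz
      exact heF (mem_biUnion.mpr ⟨z, hzS, mem_thr.mpr ⟨he, hze⟩⟩)
    have hw := hS T' hconn hdis
    have hUsum : ∑ z : N, (U.filter (fun v => D.pos v = z)).card ≤ U.card := by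
      rw [sum_coe_sort N (fun z => (U.filter (fun v => D.pos v = z)).card)]
      exact sum_fiber_le U N D.pos
    have hTsum : (T ∩ U).card ≤ ∑ z ∈ T', (U.filter (fun v => D.pos v = z)).card := by
      have : (T ∩ U) ⊆ T'.biUnion (fun z => U.filter (fun v => D.pos v = z)) := by
        intro v hv
        rw [mem_inter] at hv
        exact mem_biUnion.mpr ⟨⟨D.pos v, hpos v⟩, hposT' v hv.1, mem_filter.mpr ⟨hv.2, rfl⟩⟩
      exact (card_le_card this).trans card_biUnion_le
    calc 2 * (T ∩ U).card ≤ 2 * ∑ z ∈ T', (U.filter (fun v => D.pos v = z)).card :=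
          Nat.mul_le_mul_left 2 hTsum
      _ ≤ ∑ z : N, (U.filter (fun v => D.pos v = z)).card := hw
      _ ≤ U.card := hUsum

end Pool.Agent.Helper770.EdgeSep
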