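import Pool.Agent.Helper770.K9Cert

set_option autoImplicit false

namespace Pool.Agent.Helper770.K9

open Function

lemma anti_pow (φ : Equiv.Perm (Fin 9)) (H : Fin 9 → Fin 9 → Bool)
    (hanti : ∀ a b, a ≠ b → H (φ a) (φ b) = !H a b) (k : ℕ) (hk : k % 2 = 1) (a b : Fin 9)
    (hab : a ≠ b) : H ((φ ^ k : Equiv.Perm (Fin 9)) a) ((φ ^ k : Equiv.Perm (Fin 9)) b) = !H a b := by
  have h := iterate_anti φ φ.injective H hanti k a b hab
  rw [← Equiv.Perm.iterate_eq_pow, h, hk]
  cases H a b <;> rfl

/-- Normal form of an antimorphism on nine points. -/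
theorem exists_standard (φ : Equiv.Perm (Fin 9)) (H : Fin 9 → Fin 9 → Bool)
    (hsymm : ∀ a b, H a b = H b a)
    (hanti : ∀ a b, a ≠ b → H (φ a) (φ b) = !H a b) :
    ∃ ℓ : Fin 9 → Fin 9, Injective ℓ ∧
      ((∀ a b, a ≠ b → H (ℓ (sg1 a)) (ℓ (sg1 b)) = !H (ℓ a) (ℓ b)) ∨
        (∀ a b, a ≠ b → H (ℓ (sg2 a)) (ℓ (sg2 b)) = !H (ℓ a) (ℓ b))) := by
  classical
  set ψ : Equiv.Perm (Fin 9) := φ ^ 2835 with hψ
  have hψanti : ∀ a b, a ≠ b → H (ψ a) (ψ b) = !H a b :=
    fun a b hab => anti_pow φ H hanti 2835 (by norm_num) a b hab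
  have hψ128 : ψ ^ (2 ^ 7) = 1 := by
    rw [hψ, ← pow_mul]
    have h1 : Fintype.card (Equiv.Perm (Fin 9)) = 2835 * 2 ^ 7 := by
      rw [Fintype.card_perm, Fintype.card_fin]; decide +kernel
    rw [← h1]; exact pow_card_eq_one
  -- a fixed point
  obtain ⟨z, hz⟩ : ∃ z, ψ z = z :=
    Equiv.Perm.exists_fixed_point_of_prime (p := 2) (n := 7) (by rw [Fintype.card_fin]; norm_num)
      hψ128
  have hz' : ∀ n, ψ^[n] z = z := fun n => Function.iterate_fixed hz n
  have hfix : ∀ x, ψ x = x → x = z := by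
    intro x hx
    by_contra hne
    have := hψanti x z hne
    rw [hx, hz] at this
    cases h : H x z <;> simp [h] at this
  have htwo : ∀ x, ψ (ψ x) = x → x = z := by
    intro x hx
    by_contra hne
    have hne' : x ≠ ψ x := fun h => hne (hfix x h.symm)
    have := hψanti x (ψ x) hne'
    rw [hx, hsymm] at this
    cases h : H x (ψ x) <;> simp [h] at this
  -- periods
  have hper : ∀ x, x ≠ z → minimalPeriod ψ x = 4 ∨ minimalPeriod ψ x = 8 := by
    intro x hx
    have h1 : IsPeriodicPt ψ (2 ^ 7) x := by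
      have : (ψ ^ (2 ^ 7)) x = x := by rw [hψ128]; rfl
      rw [← Equiv.Perm.iterate_eq_pow] at this
      exact this
    have h2 := h1.minimalPeriod_dvd
    have h3 : minimalPeriod ψ x ≤ 9 := by
      have := Function.minimalPeriod_le_card (f := ψ) (x := x)
      rwa [Fintype.card_fin] at this
    obtain ⟨k, hk, hkk⟩ := (Nat.dvd_prime_pow Nat.prime_two).mp h2
    have h4 : k ≤ 3 := by
      by_contra h
      push Not at h
      have : 2 ^ 4 ≤ 2 ^ k := Nat.pow_le_pow_right (by norm_num) h
      omega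
    have h5 := Function.iterate_minimalPeriod (f := ψ) (x := x)
    interval_cases k
    · rw [hkk] at h5; exact absurd (hfix x h5) hx
    · rw [hkk] at h5; exact absurd (htwo x h5) hx
    · left; exact hkk
    · right; exact hkk
  have hinj : ∀ x i j, i < minimalPeriod ψ x → j < minimalPeriod ψ x → ψ^[i] x = ψ^[j] x → i = j :=
    fun x i j hi hj h => Function.iterate_injOn_Iio_minimalPeriod hi hj h
  have hnez : ∀ x, x ≠ z → ∀ i, ψ^[i] x ≠ z := by
    intro x hx i h
    rw [← hz' i] at h
    exact hx (ψ.injective.iterate i h)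
  by_cases h8 : ∃ x, x ≠ z ∧ minimalPeriod ψ x = 8
  · obtain ⟨x, hx, hx8⟩ := h8
    let ℓ : Fin 9 → Fin 9 := fun a => if a.val = 8 then z else ψ^[a.val] x
    have hℓinj : Injective ℓ := by
      intro a b hab
      simp only [ℓ] at hab
      split_ifs at hab with h1 h2 h2
      · exact Fin.ext (by omega)
      · exact absurd hab.symm (hnez x hx _)
      · exact absurd hab (hnez x hx _)
      · exact Fin.ext (hinj x _ _ (by omega) (by omega) hab)
    have hx8' : ψ^[8] x = x := by
      have := Function.iterate_minimalPeriod (f := ψ) (x := x)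
      rwa [hx8] at this
    have hℓ : ∀ a, ψ (ℓ a) = ℓ (sg2 a) := by
      intro a
      fin_cases a
      · rfl
      · rfl
      · rfl
      · rfl
      · rfl
      · rfl
      · rfl
      · exact hx8'
      · exact hz
    refine ⟨ℓ, hℓinj, Or.inr ?_⟩
    intro a b hab
    rw [← hℓ, ← hℓ]
    exact hψanti _ _ (fun h => hab (hℓinj h))
  · push Not at h8
    have h4 : ∀ x, x ≠ z → minimalPeriod ψ x = 4 := fun x hx =>
      (hper x hx).resolve_right (h8 x hx)
    have h4' : ∀ x, x ≠ z → ψ^[4] x = x := fun x hx => by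
      have := Function.iterate_minimalPeriod (f := ψ) (x := x)
      rwa [h4 x hx] at this
    obtain ⟨x, hx⟩ : ∃ x, x ≠ z := exists_ne z
    obtain ⟨y, hy⟩ : ∃ y, y ∉ ({z, x, ψ x, ψ (ψ x), ψ (ψ (ψ x))} : Finset (Fin 9)) := by
      by_contra hno
      push Not at hno
      have h1 : (Finset.univ : Finset (Fin 9)) ⊆ {z, x, ψ x, ψ (ψ x), ψ (ψ (ψ x))} :=
        fun y _ => hno y
      have h2 := Finset.card_le_card h1
      rw [Finset.card_univ, Fintype.card_fin] at h2
      have h3 := Finset.card_le_five (a := z) (b := x) (c := ψ x) (d := ψ (ψ x))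
        (e := ψ (ψ (ψ x)))
      omega
    simp only [Finset.mem_insert, Finset.mem_singleton, not_or] at hy
    obtain ⟨hyz, hy0, hy1, hy2, hy3⟩ := hy
    have hxy : ∀ i < 4, ∀ j < 4, ψ^[i] x ≠ ψ^[j] y := by
      intro i hi j hj h
      have e1 : y = ψ^[4 - j] (ψ^[i] x) := by
        rw [h, ← Function.iterate_add_apply]
        have : 4 - j + j = 4 := by omega
        rw [this, h4' y hyz]
      rw [← Function.iterate_add_apply] at e1
      have e2 : ψ^[4 - j + i] x = ψ^[(4 - j + i) % 4] x := by
        have := Function.iterate_mod_minimalPeriod_eq (f := ψ) (x := x) (n := 4 - j + i)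
        rw [h4 x hx] at this
        exact this.symm
      rw [e2] at e1
      have e3 : (4 - j + i) % 4 < 4 := Nat.mod_lt _ (by norm_num)
      generalize (4 - j + i) % 4 = r at e1 e3
      interval_cases r
      · exact hy0 e1
      · exact hy1 e1
      · exact hy2 e1
      · exact hy3 e1
    let ℓ : Fin 9 → Fin 9 := fun a => if a.val = 8 then z else
      if a.val < 4 then ψ^[a.val] x else ψ^[a.val - 4] y
    have hℓinj : Injective ℓ := by
      intro a b hab
      simp only [ℓ] at hab
      have ha := a.isLt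
      have hb := b.isLt
      split_ifs at hab with h1 h2 h3 h4a h5 h6 h7 h8a
      · exact Fin.ext (by omega)
      · exact absurd hab.symm (hnez x hx _)
      · exact absurd hab.symm (hnez y hyz _)
      · exact absurd hab (hnez x hx _)
      · exact Fin.ext (hinj x _ _ (by rw [h4 x hx]; omega) (by rw [h4 x hx]; omega) hab)
      · exact absurd hab (hxy _ (by omega) _ (by omega))
      · exact absurd hab (hnez y hyz _)
      · exact absurd hab.symm (hxy _ (by omega) _ (by omega))
      · have := hinj y _ _ (by rw [h4 y hyz]; omega) (by rw [h4 y hyz]; omega) hab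
        exact Fin.ext (by omega)
    have hℓ : ∀ a, ψ (ℓ a) = ℓ (sg1 a) := by
      intro a
      fin_cases a
      · rfl
      · rfl
      · rfl
      · exact h4' x hx
      · rfl
      · rfl
      · rfl
      · exact h4' y hyz
      · exact hz
    refine ⟨ℓ, hℓinj, Or.inl ?_⟩
    intro a b hab
    rw [← hℓ, ← hℓ]
    exact hψanti _ _ (fun h => hab (hℓinj h))

end Pool.Agent.Helper770.K9
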