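import Pool.Agent.Helper770.VanKampen
import Pool.Agent.Helper770.K9Data

set_option autoImplicit false

namespace Pool.Agent.Helper770.K9

open Pool.Agent.Helper770.VanKampen

/-- the two edges of an entry are independent and well oriented -/
def okEntry (q : ℕ) : Bool :=
  decide (q / 729 < q / 81 % 9) && decide (q / 9 % 9 < q % 9) && (q / 729 != q / 9 % 9) &&
    (q / 729 != q % 9) && (q / 81 % 9 != q / 9 % 9) && (q / 81 % 9 != q % 9)

/-- interleaving -/
def betaB (q : ℕ) : Bool :=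
  xor (decide (q / 729 < q / 9 % 9) && decide (q / 9 % 9 < q / 81 % 9))
    (decide (q / 729 < q % 9) && decide (q % 9 < q / 81 % 9))

/-- the four labels touched by an entry -/
def maskOf (q : ℕ) : ℕ :=
  (2 ^ (81 * (q / 729) + 9 * (q / 81 % 9) + q / 9 % 9) ^^^
    2 ^ (81 * (q / 729) + 9 * (q / 81 % 9) + q % 9)) ^^^
  (2 ^ (81 * (q / 9 % 9) + 9 * (q % 9) + q / 729) ^^^
    2 ^ (81 * (q / 9 % 9) + 9 * (q % 9) + q / 81 % 9))

/-- odd certificate -/
def okCert (P : List ℕ) : Bool :=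
  P.all okEntry && P.foldr (fun q acc => xor (betaB q) acc) false &&
    (P.foldr (fun q acc => maskOf q ^^^ acc) 0 == 0)

/-- sum of labels over the bits of a mask -/
def F (x : ℕ → ZMod 2) (m : ℕ) : ZMod 2 :=
  ∑ i ∈ Finset.range 729, if m.testBit i then x i else 0

lemma F_xor (x : ℕ → ZMod 2) (m n : ℕ) : F x (m ^^^ n) = F x m + F x n := by
  unfold F
  rw [← Finset.sum_add_distrib]
  apply Finset.sum_congr rfl
  intro i _
  rw [Nat.testBit_xor]
  cases m.testBit i <;> cases n.testBit i <;> simp [CharTwo.add_self_eq_zero]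

lemma F_pow (x : ℕ → ZMod 2) (k : ℕ) (hk : k < 729) : F x (2 ^ k) = x k := by
  unfold F
  rw [Finset.sum_eq_single k]
  · simp [Nat.testBit_two_pow_self]
  · intro i _ hik
    rw [Nat.testBit_two_pow_of_ne (Ne.symm hik)]; simp
  · intro h; exact absurd (Finset.mem_range.mpr hk) h

lemma F_zero (x : ℕ → ZMod 2) : F x 0 = 0 := by
  unfold F; simp

/-- bit as a number mod 2 -/
def bz : Bool → ZMod 2
  | true => 1
  | false => 0

lemma bz_xor (a b : Bool) : bz (xor a b) = bz a + bz b := by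
  cases a <;> cases b <;> rfl

/-- cast -/
def fn (n : ℕ) : Fin 9 := Fin.ofNat 9 n

lemma cert_contra (P : List ℕ) (hP : okCert P = true) (m : Fin 9 → Fin 9 → Fin 9 → ZMod 2)
    (hrel : ∀ q ∈ P, beta (fn (q / 729)) (fn (q / 81)) (fn (q / 9)) (fn q) =
      m (fn (q / 729)) (fn (q / 81)) (fn (q / 9)) + m (fn (q / 729)) (fn (q / 81)) (fn q) +
      m (fn (q / 9)) (fn q) (fn (q / 729)) + m (fn (q / 9)) (fn q) (fn (q / 81))) : False := by
  let x : ℕ → ZMod 2 := fun i => m (fn (i / 81)) (fn (i / 9)) (fn i)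
  have hx : ∀ a b c : ℕ, b < 9 → c < 9 → x (81 * a + 9 * b + c) = m (fn a) (fn b) (fn c) := by
    intro a b c hb hc
    simp only [x]
    have e1 : (81 * a + 9 * b + c) / 81 = a := by omega
    have e2 : fn ((81 * a + 9 * b + c) / 9) = fn b := by
      apply Fin.ext
      simp only [fn, Fin.ofNat]
      omega
    have e3 : fn (81 * a + 9 * b + c) = fn c := by
      apply Fin.ext
      simp only [fn, Fin.ofNat]
      omega
    rw [e1, e2, e3]
  have hfn : ∀ n : ℕ, fn (n % 9) = fn n := by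
    intro n; apply Fin.ext; simp only [fn, Fin.ofNat]; omega
  simp only [okCert, Bool.and_eq_true, beq_iff_eq] at hP
  obtain ⟨⟨hall, hpar⟩, hmask⟩ := hP
  -- sums over the list
  have key : ∀ Q : List ℕ, (∀ q ∈ Q, q ∈ P) →
      F x (Q.foldr (fun q acc => maskOf q ^^^ acc) 0) =
        bz (Q.foldr (fun q acc => xor (betaB q) acc) false) := by
    intro Q
    induction Q with
    | nil => intro _; simp only [List.foldr_nil, F_zero]; rfl
    | cons q Q ih =>
      intro hQ
      have ihQ := ih (fun y hy => hQ y (List.mem_cons_of_mem _ hy))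
      have hq : q ∈ P := hQ q List.mem_cons_self
      have hok := List.all_eq_true.mp hall q hq
      simp only [okEntry, Bool.and_eq_true, decide_eq_true_eq, bne_iff_ne, ne_eq] at hok
      obtain ⟨⟨⟨⟨⟨h1, h2⟩, h3⟩, h4⟩, h5⟩, h6⟩ := hok
      have hrq := hrel q hq
      simp only [List.foldr_cons]
      rw [F_xor, ihQ]
      have hF : F x (maskOf q) = beta (fn (q / 729)) (fn (q / 81)) (fn (q / 9)) (fn q) := by
        rw [hrq]
        unfold maskOf
        rw [F_xor, F_xor, F_xor, F_pow _ _ (by omega), F_pow _ _ (by omega), F_pow _ _ (by omega),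
          F_pow _ _ (by omega), hx _ _ _ (by omega) (by omega), hx _ _ _ (by omega) (by omega),
          hx _ _ _ (by omega) (by omega), hx _ _ _ (by omega) (by omega), hfn, hfn, hfn]
        ring
      have hbeta : beta (fn (q / 729)) (fn (q / 81)) (fn (q / 9)) (fn q) = bz (betaB q) := by
        have l1 : (fn (q / 729) < fn (q / 9)) ↔ (q / 729 < q / 9 % 9) := by
          rw [Fin.lt_def]; simp only [fn, Fin.ofNat]; omega
        have l2 : (fn (q / 9) < fn (q / 81)) ↔ (q / 9 % 9 < q / 81 % 9) := by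
          rw [Fin.lt_def]; simp only [fn, Fin.ofNat]
        have l3 : (fn (q / 729) < fn q) ↔ (q / 729 < q % 9) := by
          rw [Fin.lt_def]; simp only [fn, Fin.ofNat]; omega
        have l4 : (fn q < fn (q / 81)) ↔ (q % 9 < q / 81 % 9) := by
          rw [Fin.lt_def]; simp only [fn, Fin.ofNat]
        unfold beta betaB
        simp only [l1, l2, l3, l4]
        by_cases c1 : q / 729 < q / 9 % 9 <;> by_cases c2 : q / 9 % 9 < q / 81 % 9 <;>
          by_cases c3 : q / 729 < q % 9 <;> by_cases c4 : q % 9 < q / 81 % 9 <;>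
          simp only [c1, c2, c3, c4, and_true, and_false, if_true, if_false, decide_true,
            decide_false] <;> rfl
      rw [hF, hbeta, bz_xor]
  have := key P (fun q hq => hq)
  rw [hmask, hpar, F_zero] at this
  exact zero_ne_one this

/-- presence of the edges of an entry -/
def pres (tI tP n q : ℕ) : Bool :=
  xor (n.testBit (tI / 16 ^ (9 * (q / 729) + q / 81 % 9) % 16))
    (tP.testBit (9 * (q / 729) + q / 81 % 9)) &&
  xor (n.testBit (tI / 16 ^ (9 * (q / 9 % 9) + q % 9) % 16))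
    (tP.testBit (9 * (q / 9 % 9) + q % 9))

lemma iterate_anti (σ : Fin 9 → Fin 9) (hσ : Function.Injective σ) (H : Fin 9 → Fin 9 → Bool)
    (hanti : ∀ a b, a ≠ b → H (σ a) (σ b) = !H a b) (k : ℕ) (r s : Fin 9) (hrs : r ≠ s) :
    H (σ^[k] r) (σ^[k] s) = xor (H r s) (decide (k % 2 = 1)) := by
  induction k with
  | zero => simp
  | succ k ih =>
    rw [Function.iterate_succ_apply', Function.iterate_succ_apply',
      hanti _ _ (fun h => hrs (hσ.iterate k h)), ih]
    have : decide ((k + 1) % 2 = 1) = !decide (k % 2 = 1) := by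
      rcases Nat.mod_two_eq_zero_or_one k with h | h
      · have : (k + 1) % 2 = 1 := by omega
        simp [h, this]
      · have : (k + 1) % 2 = 0 := by omega
        simp [h, this]
    rw [this]
    cases H r s <;> cases decide (k % 2 = 1) <;> rfl

theorem generic (nb : ℕ) (σ : Fin 9 → Fin 9) (rep : Fin nb → Fin 9 × Fin 9) (tI tP : ℕ)
    (certs : List (List ℕ)) (hrep : ∀ j, (rep j).1 ≠ (rep j).2) (hσ : Function.Injective σ)
    (htab : ∀ a b : Fin 9, a < b → ∃ (j : Fin nb) (k : Fin 8),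
      tI / 16 ^ (9 * a.val + b.val) % 16 = j.val ∧
      tP.testBit (9 * a.val + b.val) = decide (k.val % 2 = 1) ∧
      ((σ^[k.val] (rep j).1 = a ∧ σ^[k.val] (rep j).2 = b) ∨
        (σ^[k.val] (rep j).1 = b ∧ σ^[k.val] (rep j).2 = a)))
    (hok : certs.all okCert = true)
    (hcov : ∀ n < 2 ^ nb, certs.any (fun P => P.all (fun q => pres tI tP n q)) = true)
    (H : Fin 9 → Fin 9 → Bool) (hsymm : ∀ a b, H a b = H b a)
    (hanti : ∀ a b, a ≠ b → H (σ a) (σ b) = !H a b)
    (m : Fin 9 → Fin 9 → Fin 9 → ZMod 2)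
    (hm : ∀ a b c d, a < b → c < d → H a b = true → H c d = true → a ≠ c → a ≠ d → b ≠ c → b ≠ d →
      beta a b c d = m a b c + m a b d + m c d a + m c d b) : False := by
  let f : Fin nb → Bool := fun j => H (rep j).1 (rep j).2
  have hH : ∀ a b : Fin 9, a < b → H a b =
      xor ((Nat.ofBits f).testBit (tI / 16 ^ (9 * a.val + b.val) % 16))
        (tP.testBit (9 * a.val + b.val)) := by
    intro a b hab
    obtain ⟨j, k, h1, h2, h3⟩ := htab a b hab
    rw [h1, h2, Nat.testBit_ofBits_lt f j.val j.isLt]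
    have h4 := iterate_anti σ hσ H hanti k.val (rep j).1 (rep j).2 (hrep j)
    rcases h3 with ⟨h5, h6⟩ | ⟨h5, h6⟩
    · rw [h5, h6] at h4; exact h4
    · rw [h5, h6] at h4; rw [hsymm a b]; exact h4
  obtain ⟨P, hP, hPq⟩ := List.any_eq_true.mp (hcov (Nat.ofBits f) (Nat.ofBits_lt_two_pow f))
  have hokP := List.all_eq_true.mp hok P hP
  refine cert_contra P hokP m ?_
  intro q hq
  have hpres := List.all_eq_true.mp hPq q hq
  simp only [okCert, Bool.and_eq_true] at hokP
  have hq' := List.all_eq_true.mp hokP.1.1 q hq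
  simp only [okEntry, Bool.and_eq_true, decide_eq_true_eq, bne_iff_ne, ne_eq] at hq'
  obtain ⟨⟨⟨⟨⟨h1, h2⟩, h3⟩, h4⟩, h5⟩, h6⟩ := hq'
  simp only [pres, Bool.and_eq_true] at hpres
  have va : (fn (q / 729)).val = q / 729 := by simp only [fn, Fin.ofNat]; omega
  have vb : (fn (q / 81)).val = q / 81 % 9 := by simp only [fn, Fin.ofNat]
  have vc : (fn (q / 9)).val = q / 9 % 9 := by simp only [fn, Fin.ofNat]
  have vd : (fn q).val = q % 9 := by simp only [fn, Fin.ofNat]
  have hab : fn (q / 729) < fn (q / 81) := by rw [Fin.lt_def, va, vb]; exact h1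
  have hcd : fn (q / 9) < fn q := by rw [Fin.lt_def, vc, vd]; exact h2
  refine hm _ _ _ _ hab hcd ?_ ?_ ?_ ?_ ?_ ?_
  · rw [hH _ _ hab, va, vb]; exact hpres.1
  · rw [hH _ _ hcd, vc, vd]; exact hpres.2
  · intro h; rw [Fin.ext_iff, va, vc] at h; exact h3 h
  · intro h; rw [Fin.ext_iff, va, vd] at h; exact h4 h
  · intro h; rw [Fin.ext_iff, vb, vc] at h; exact h5 h
  · intro h; rw [Fin.ext_iff, vb, vd] at h; exact h6 h

/-- first antimorphism type -/
def sg1 : Fin 9 → Fin 9 := ![1, 2, 3, 0, 5, 6, 7, 4, 8]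

/-- second antimorphism type -/
def sg2 : Fin 9 → Fin 9 := ![1, 2, 3, 4, 5, 6, 7, 0, 8]

/-- orbit representatives -/
def rep1 : Fin 10 → Fin 9 × Fin 9 :=
  ![(0, 1), (0, 2), (0, 4), (0, 5), (0, 6), (0, 7), (0, 8), (4, 5), (4, 6), (4, 8)]

/-- orbit representatives -/
def rep2 : Fin 5 → Fin 9 × Fin 9 := ![(0, 1), (0, 2), (0, 3), (0, 4), (0, 8)]

lemma ok1 : certs1.all okCert = true := by decide +kernel
lemma ok2 : certs2.all okCert = true := by decide +kernel
lemma cov1 : ∀ n < 2 ^ 10, certs1.any (fun P => P.all (fun q => pres tI1 tP1 n q)) = true := by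
  decide +kernel
lemma cov2 : ∀ n < 2 ^ 5, certs2.any (fun P => P.all (fun q => pres tI2 tP2 n q)) = true := by
  decide +kernel
lemma tab1 : ∀ a b : Fin 9, a < b → ∃ (j : Fin 10) (k : Fin 8),
      tI1 / 16 ^ (9 * a.val + b.val) % 16 = j.val ∧
      tP1.testBit (9 * a.val + b.val) = decide (k.val % 2 = 1) ∧
      ((sg1^[k.val] (rep1 j).1 = a ∧ sg1^[k.val] (rep1 j).2 = b) ∨
        (sg1^[k.val] (rep1 j).1 = b ∧ sg1^[k.val] (rep1 j).2 = a)) := by
  decide +kernel
lemma tab2 : ∀ a b : Fin 9, a < b → ∃ (j : Fin 5) (k : Fin 8),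
      tI2 / 16 ^ (9 * a.val + b.val) % 16 = j.val ∧
      tP2.testBit (9 * a.val + b.val) = decide (k.val % 2 = 1) ∧
      ((sg2^[k.val] (rep2 j).1 = a ∧ sg2^[k.val] (rep2 j).2 = b) ∨
        (sg2^[k.val] (rep2 j).1 = b ∧ sg2^[k.val] (rep2 j).2 = a)) := by
  decide +kernel

end Pool.Agent.Helper770.K9
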