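import Mathlib

set_option autoImplicit false

namespace Pool.Agent.Helper770.K9

open Complex

/-- The crossing set of the frozen statement. -/
def CS {V : Type} (G : SimpleGraph V) (c : V → V → Fin 2) (γ : Fin 2 → V → V → ℝ → ℂ) :
    Set (Fin 2 × V × V × V × V × ℂ) :=
  {x : Fin 2 × V × V × V × V × ℂ |
            G.Adj x.2.1 x.2.2.1 ∧ G.Adj x.2.2.2.1 x.2.2.2.2.1 ∧
            c x.2.1 x.2.2.1 = x.1 ∧ c x.2.2.2.1 x.2.2.2.2.1 = x.1 ∧
            ¬ (x.2.1 = x.2.2.2.1 ∧ x.2.2.1 = x.2.2.2.2.1) ∧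
            ¬ (x.2.1 = x.2.2.2.2.1 ∧ x.2.2.1 = x.2.2.2.1) ∧
            (∃ t : ℝ, 0 < t ∧ t < 1 ∧ γ x.1 x.2.1 x.2.2.1 t = x.2.2.2.2.2) ∧
            (∃ t : ℝ, 0 < t ∧ t < 1 ∧ γ x.1 x.2.2.2.1 x.2.2.2.2.1 t = x.2.2.2.2.2)}

/-- The arc conditions of the frozen statement. -/
def Arcs {V : Type} (G : SimpleGraph V) (c : V → V → Fin 2) (p : Fin 2 → V → ℂ)
    (γ : Fin 2 → V → V → ℝ → ℂ) : Prop :=
  ∀ i : Fin 2, ∀ u v : V, G.Adj u v → c u v = i →
            ContinuousOn (γ i u v) (Set.Icc (0:ℝ) 1) ∧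
            Set.InjOn (γ i u v) (Set.Icc (0:ℝ) 1) ∧
            γ i u v 0 = p i u ∧ γ i u v 1 = p i v ∧
            (∀ t : ℝ, 0 ≤ t → t ≤ 1 → γ i v u t = γ i u v (1 - t)) ∧
            ∀ t : ℝ, 0 < t → t < 1 → ∀ w : V, γ i u v t ≠ p i w

/-- x-coordinates -/
def px (i : Fin 2) (v : Fin 9) : ℤ :=
  (([[9, 5, 12, 10, 3, 10, 9, 14, 8], [14, 8, 5, 8, 5, 10, 12, 7, 7]] : List (List ℤ)).getD
    i.val []).getD v.val 0

/-- y-coordinates -/
def py (i : Fin 2) (v : Fin 9) : ℤ :=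
  (([[13, 5, 1, 8, 2, 13, 9, 15, 6], [14, 8, 13, 9, 3, 11, 6, 4, 9]] : List (List ℤ)).getD
    i.val []).getD v.val 0

/-- the edges drawn in the first plane -/
def zeroEdges : List (ℕ × ℕ) :=
  [(0, 4), (1, 2), (1, 4), (1, 5), (1, 6), (1, 8), (2, 3), (2, 4), (2, 5), (2, 6), (2, 7), (2, 8),
    (3, 5), (3, 6), (4, 5), (5, 6), (5, 7), (6, 8)]

/-- the partition of the edges -/
def col (u v : Fin 9) : Fin 2 :=
  if zeroEdges.contains (u.val, v.val) || zeroEdges.contains (v.val, u.val) then 0 else 1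

/-- orientation -/
def ori (i : Fin 2) (a b c : Fin 9) : ℤ :=
  (px i b - px i a) * (py i c - py i a) - (py i b - py i a) * (px i c - px i a)

/-- same weak side, not both on the line -/
def side (x y : ℤ) : Bool :=
  (decide (0 ≤ x) && decide (0 ≤ y) && (decide (0 < x) || decide (0 < y))) ||
  (decide (x ≤ 0) && decide (y ≤ 0) && (decide (x < 0) || decide (y < 0)))

/-- the segments do not cross -/
def sepd (i : Fin 2) (a b c d : Fin 9) : Bool :=
  side (ori i a b c) (ori i a b d) || side (ori i c d a) (ori i c d b)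

/-- positions -/
noncomputable def pp (i : Fin 2) (v : Fin 9) : ℂ := ⟨px i v, py i v⟩

/-- straight arcs -/
noncomputable def gg (i : Fin 2) (u v : Fin 9) (t : ℝ) : ℂ :=
  ⟨(1 - t) * px i u + t * px i v, (1 - t) * py i u + t * py i v⟩

lemma gg_cont (i : Fin 2) (u v : Fin 9) : Continuous (gg i u v) := by
  have : gg i u v = fun t : ℝ => (((1 - t) * px i u + t * px i v : ℝ) : ℂ) +
      (((1 - t) * py i u + t * py i v : ℝ) : ℂ) * I := by
    funext t; exact mk_eq_add_mul_I _ _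
  rw [this]; fun_prop

lemma col_symm : ∀ u v : Fin 9, col u v = col v u := by decide +kernel

lemma pos_ne : ∀ i : Fin 2, ∀ u v : Fin 9, u ≠ v → (px i u ≠ px i v ∨ py i u ≠ py i v) := by
  decide +kernel

lemma general : ∀ i : Fin 2, ∀ u v w : Fin 9, u ≠ v → w ≠ u → w ≠ v → ori i u v w ≠ 0 := by
  decide +kernel

/-- the pair of crossing edges -/
def isX (u v a b : Fin 9) : Bool :=
  (((u == 3 && v == 4) || (u == 4 && v == 3)) && ((a == 7 && b == 8) || (a == 8 && b == 7))) ||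
  (((u == 7 && v == 8) || (u == 8 && v == 7)) && ((a == 3 && b == 4) || (a == 4 && b == 3)))

/-- check of one pair of edges -/
def okPair (i : Fin 2) (u v a b : Fin 9) : Bool :=
  u == v || a == b || !(col u v == i) || !(col a b == i) || (u == a && v == b) ||
    (u == b && v == a) || sepd i u v a b || (i == 1 && isX u v a b)

lemma okPair_all : ∀ i : Fin 2, ∀ u v a b : Fin 9, okPair i u v a b = true := by
  decide +kernel

lemma crossing_pairs (i : Fin 2) (u v a b : Fin 9) (h1 : u ≠ v) (h2 : a ≠ b) (h3 : col u v = i)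
    (h4 : col a b = i) (h5 : ¬ (u = a ∧ v = b)) (h6 : ¬ (u = b ∧ v = a)) :
    sepd i u v a b = true ∨ (i = 1 ∧ isX u v a b = true) := by
  have h := okPair_all i u v a b
  simp only [okPair, Bool.or_eq_true, Bool.and_eq_true, beq_iff_eq, Bool.not_eq_true',
    beq_eq_false_iff_ne, ne_eq] at h
  tauto

lemma side_zero (x y : ℤ) (s : ℝ) (hs0 : 0 < s) (hs1 : s < 1)
    (h : (1 - s) * (x : ℝ) + s * y = 0) : side x y = false := by
  rw [Bool.eq_false_iff]
  intro hside
  simp only [side, Bool.or_eq_true, Bool.and_eq_true, decide_eq_true_eq] at hside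
  have h1s : 0 < 1 - s := by linarith
  rcases hside with ⟨⟨hx, hy⟩, hxy⟩ | ⟨⟨hx, hy⟩, hxy⟩
  · have hx' : (0 : ℝ) ≤ x := by exact_mod_cast hx
    have hy' : (0 : ℝ) ≤ y := by exact_mod_cast hy
    rcases hxy with hxy | hxy
    · have : (0 : ℝ) < x := by exact_mod_cast hxy
      nlinarith [mul_pos h1s this, mul_nonneg hs0.le hy']
    · have : (0 : ℝ) < y := by exact_mod_cast hxy
      nlinarith [mul_pos hs0 this, mul_nonneg h1s.le hx']
  · have hx' : (x : ℝ) ≤ 0 := by exact_mod_cast hx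
    have hy' : (y : ℝ) ≤ 0 := by exact_mod_cast hy
    rcases hxy with hxy | hxy
    · have : (x : ℝ) < 0 := by exact_mod_cast hxy
      nlinarith [mul_neg_of_pos_of_neg h1s this, mul_nonpos_of_nonneg_of_nonpos hs0.le hy']
    · have : (y : ℝ) < 0 := by exact_mod_cast hxy
      nlinarith [mul_neg_of_pos_of_neg hs0 this, mul_nonpos_of_nonneg_of_nonpos h1s.le hx']

lemma ori_zero (i : Fin 2) (u v a b : Fin 9) (s t : ℝ) (h : gg i u v s = gg i a b t) :
    (1 - t) * (ori i u v a : ℝ) + t * ori i u v b = 0 := by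
  have hx := congrArg re h
  have hy := congrArg im h
  simp only [gg] at hx hy
  simp only [ori]
  push_cast
  linear_combination (-((px i v : ℝ) - px i u)) * hy + ((py i v : ℝ) - py i u) * hx

lemma sepd_no_cross (i : Fin 2) (u v a b : Fin 9) (hsep : sepd i u v a b = true) (s t : ℝ)
    (hs0 : 0 < s) (hs1 : s < 1) (ht0 : 0 < t) (ht1 : t < 1) (h : gg i u v s = gg i a b t) :
    False := by
  have h1 := side_zero _ _ t ht0 ht1 (ori_zero i u v a b s t h)
  have h2 := side_zero _ _ s hs0 hs1 (ori_zero i a b u v t s h.symm)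
  simp [sepd, h1, h2] at hsep

lemma pp_inj (i : Fin 2) : Function.Injective (pp i) := by
  intro u v h
  by_contra hne
  rcases pos_ne i u v hne with h1 | h1
  · have e : (px i u : ℝ) = px i v := congrArg re h
    exact h1 (by exact_mod_cast e)
  · have e : (py i u : ℝ) = py i v := congrArg im h
    exact h1 (by exact_mod_cast e)

lemma gg_inj (i : Fin 2) (u v : Fin 9) (huv : u ≠ v) (s t : ℝ) (h : gg i u v s = gg i u v t) :
    s = t := by
  have hx := congrArg re h
  have hy := congrArg im h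
  simp only [gg] at hx hy
  rcases pos_ne i u v huv with h1 | h1
  · have h2 : (s - t) * ((px i v : ℝ) - px i u) = 0 := by linarith
    rcases mul_eq_zero.mp h2 with h3 | h3
    · linarith
    · exact absurd (by exact_mod_cast (sub_eq_zero.mp h3).symm) h1
  · have h2 : (s - t) * ((py i v : ℝ) - py i u) = 0 := by linarith
    rcases mul_eq_zero.mp h2 with h3 | h3
    · linarith
    · exact absurd (by exact_mod_cast (sub_eq_zero.mp h3).symm) h1

lemma arcs_ok : Arcs (⊤ : SimpleGraph (Fin 9)) col pp gg := by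
  intro i u v huv _
  have hne : u ≠ v := huv
  refine ⟨(gg_cont i u v).continuousOn, fun s _ t _ h => gg_inj i u v hne s t h, ?_, ?_, ?_, ?_⟩
  · simp only [gg, pp]; congr 1 <;> ring
  · simp only [gg, pp]; congr 1 <;> ring
  · intro t _ _
    simp only [gg]; congr 1 <;> ring
  · intro t ht0 ht1 w hw
    by_cases hwu : w = u
    · have h0 : gg i u v 0 = pp i u := by simp only [gg, pp]; congr 1 <;> ring
      rw [hwu, ← h0] at hw
      exact ht0.ne' (gg_inj i u v hne t 0 hw)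
    by_cases hwv : w = v
    · have h0 : gg i u v 1 = pp i v := by simp only [gg, pp]; congr 1 <;> ring
      rw [hwv, ← h0] at hw
      exact ht1.ne (gg_inj i u v hne t 1 hw)
    · have h0 : gg i w w 0 = pp i w := by simp only [gg, pp]; congr 1 <;> ring
      rw [← h0] at hw
      have h1 := ori_zero i u v w w t 0 hw
      have h2 : (ori i u v w : ℝ) = 0 := by linarith
      exact general i u v w hne hwu hwv (by exact_mod_cast h2)

/-- the eight versions of the crossing pair -/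
def eight : Finset (Fin 9 × Fin 9 × Fin 9 × Fin 9) :=
  {(3, 4, 7, 8), (4, 3, 7, 8), (3, 4, 8, 7), (4, 3, 8, 7), (7, 8, 3, 4), (7, 8, 4, 3),
    (8, 7, 3, 4), (8, 7, 4, 3)}

lemma isX_mem (u v a b : Fin 9) (h : isX u v a b = true) : (u, v, a, b) ∈ eight := by
  simp only [isX, Bool.or_eq_true, Bool.and_eq_true, beq_iff_eq] at h
  rcases h with ⟨h1, h2⟩ | ⟨h1, h2⟩ <;> rcases h1 with ⟨rfl, rfl⟩ | ⟨rfl, rfl⟩ <;>
    rcases h2 with ⟨rfl, rfl⟩ | ⟨rfl, rfl⟩ <;> decide

lemma cs_subset : CS (⊤ : SimpleGraph (Fin 9)) col gg ⊆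
    ((eight.image (fun q => ((1 : Fin 2), q.1, q.2.1, q.2.2.1, q.2.2.2, (⟨7, 7⟩ : ℂ))) :
      Finset (Fin 2 × Fin 9 × Fin 9 × Fin 9 × Fin 9 × ℂ)) :
      Set (Fin 2 × Fin 9 × Fin 9 × Fin 9 × Fin 9 × ℂ)) := by
  rintro ⟨i, u, v, a, b, z⟩ ⟨h1, h2, h3, h4, h5, h6, ⟨s, hs0, hs1, hs⟩, ⟨t, ht0, ht1, ht⟩⟩
  simp only at h1 h2 h3 h4 h5 h6 hs ht
  have hgg : gg i u v s = gg i a b t := hs.trans ht.symm
  rcases crossing_pairs i u v a b h1 h2 h3 h4 h5 h6 with hsep | ⟨rfl, hX⟩
  · exact (sepd_no_cross i u v a b hsep s t hs0 hs1 ht0 ht1 hgg).elim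
  · have hmem := isX_mem u v a b hX
    have hz : z = ⟨7, 7⟩ := by
      rw [← hs]
      have hx := congrArg re hgg
      have hy := congrArg im hgg
      simp only [eight, Finset.mem_insert, Finset.mem_singleton, Prod.mk.injEq] at hmem
      simp only [gg] at hx hy ⊢
      rcases hmem with ⟨rfl, rfl, rfl, rfl⟩ | ⟨rfl, rfl, rfl, rfl⟩ | ⟨rfl, rfl, rfl, rfl⟩ |
        ⟨rfl, rfl, rfl, rfl⟩ | ⟨rfl, rfl, rfl, rfl⟩ | ⟨rfl, rfl, rfl, rfl⟩ |
        ⟨rfl, rfl, rfl, rfl⟩ | ⟨rfl, rfl, rfl, rfl⟩ <;>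
      simp [px, py] at hx hy ⊢ <;> constructor <;> linarith
    rw [Finset.mem_coe, Finset.mem_image]
    exact ⟨(u, v, a, b), hmem, by rw [hz]⟩

lemma cs_finite : (CS (⊤ : SimpleGraph (Fin 9)) col gg).Finite :=
  (Finset.finite_toSet _).subset cs_subset

lemma cs_card : (CS (⊤ : SimpleGraph (Fin 9)) col gg).ncard ≤ 8 := by
  refine (Set.ncard_le_ncard cs_subset (Finset.finite_toSet _)).trans ?_
  rw [Set.ncard_coe_finset]
  exact Finset.card_image_le.trans (by decide)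

end Pool.Agent.Helper770.K9
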