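import Pool.Agent.Helper770.K9Anti
import Pool.Agent.Helper770.K9Upper

set_option autoImplicit false

namespace Pool.Agent.Helper770.K9

open Function Pool.Agent.Helper770.VanKampen

/-- No colouring of the edges of `K₉` with an antimorphism has a crossing-free colour class. -/
theorem planar_contra (c : Fin 9 → Fin 9 → Fin 2) (hc : ∀ u v, u ≠ v → c u v = c v u)
    (e : Equiv.Perm (Fin 9)) (he : ∀ u v, u ≠ v → c (e u) (e v) ≠ c u v) (i : Fin 2)
    (p : Fin 9 → ℂ) (hp : Injective p) (γ : Fin 9 → Fin 9 → ℝ → ℂ)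
    (hcont : ∀ u v, u ≠ v → c u v = i → ContinuousOn (γ u v) (Set.Icc 0 1))
    (h0 : ∀ u v, u ≠ v → c u v = i → γ u v 0 = p u)
    (h1 : ∀ u v, u ≠ v → c u v = i → γ u v 1 = p v)
    (hav : ∀ u v, u ≠ v → c u v = i → ∀ t : ℝ, 0 < t → t < 1 → ∀ w, γ u v t ≠ p w)
    (hno : ∀ u v a b, u ≠ v → a ≠ b → c u v = i → c a b = i → u ≠ a → u ≠ b → v ≠ a → v ≠ b →
      ∀ s t : ℝ, 0 < s → s < 1 → 0 < t → t < 1 → γ u v s ≠ γ a b t) : False := by
  classical
  let H : Fin 9 → Fin 9 → Bool := fun u v => decide (c u v = i)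
  have hHs : ∀ a b, H a b = H b a := by
    intro a b
    by_cases h : a = b
    · rw [h]
    · simp only [H, hc a b h]
  have hHa : ∀ a b, a ≠ b → H (e a) (e b) = !H a b := by
    intro a b hab
    have h2 := he a b hab
    simp only [H]
    have key : ∀ x y j : Fin 2, x ≠ y → decide (x = j) = !decide (y = j) := by decide
    exact key _ _ _ h2
  obtain ⟨ℓ, hℓ, hstd⟩ := exists_standard e H hHs hHa
  have hne : ∀ a b : Fin 9, a < b → ℓ a ≠ ℓ b := fun a b hab h => hab.ne (hℓ h)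
  let g : Fin 9 → Fin 9 → ℝ → ℂ := fun a b t =>
    γ (ℓ a) (ℓ b) (Set.projIcc (0 : ℝ) 1 zero_le_one t)
  have hE : ∀ a b, H (ℓ a) (ℓ b) = true → c (ℓ a) (ℓ b) = i := fun a b h => by
    simpa [H] using h
  have ho : ∀ a b, a < b → H (ℓ a) (ℓ b) = true → ∀ x, x ≠ ℓ a → x ≠ ℓ b →
      ∀ t ∈ Set.Icc (0 : ℝ) 1, γ (ℓ a) (ℓ b) t ≠ p x := by
    intro a b hab hH x hxa hxb t ht h
    rcases eq_or_lt_of_le ht.1 with h3 | h3
    · rw [← h3, h0 _ _ (hne a b hab) (hE a b hH)] at h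
      exact hxa (hp h.symm)
    · rcases eq_or_lt_of_le ht.2 with h4 | h4
      · rw [h4, h1 _ _ (hne a b hab) (hE a b hH)] at h
        exact hxb (hp h.symm)
      · exact hav _ _ (hne a b hab) (hE a b hH) t h3 h4 x h
  obtain ⟨m, hm⟩ := exists_labels (fun a => p (ℓ a)) (hp.comp hℓ)
    (fun a b => H (ℓ a) (ℓ b) = true) g
    (by
      intro a b hab hH
      have := hcont _ _ (hne a b hab) (hE a b hH)
      exact this.comp_continuous (continuous_subtype_val.comp continuous_projIcc)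
        (fun x => (Set.projIcc (0 : ℝ) 1 zero_le_one x).2))
    (by
      intro a b hab hH
      simp only [g]
      rw [Set.projIcc_of_le_left zero_le_one le_rfl]
      exact h0 _ _ (hne a b hab) (hE a b hH))
    (by
      intro a b hab hH
      simp only [g]
      rw [Set.projIcc_of_right_le zero_le_one le_rfl]
      exact h1 _ _ (hne a b hab) (hE a b hH))
    (by
      intro a b x hab hH hxa hxb t
      exact ho a b hab hH (ℓ x) (fun h => hxa (hℓ h)) (fun h => hxb (hℓ h)) _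
        (Set.projIcc (0 : ℝ) 1 zero_le_one t).2)
  have hm' : ∀ a b x y, a < b → x < y → H (ℓ a) (ℓ b) = true → H (ℓ x) (ℓ y) = true →
      a ≠ x → a ≠ y → b ≠ x → b ≠ y →
      beta a b x y = m a b x + m a b y + m x y a + m x y b := by
    intro a b x y hab hxy hH1 hH2 hax hay hbx hby
    refine hm a b x y hab hxy hH1 hH2 hax hay hbx hby ?_
    intro s t h
    simp only [g] at h
    have hs := (Set.projIcc (0 : ℝ) 1 zero_le_one s).2
    have ht := (Set.projIcc (0 : ℝ) 1 zero_le_one t).2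
    generalize ((Set.projIcc (0 : ℝ) 1 zero_le_one s : Set.Icc (0 : ℝ) 1) : ℝ) = s' at h hs
    generalize ((Set.projIcc (0 : ℝ) 1 zero_le_one t : Set.Icc (0 : ℝ) 1) : ℝ) = t' at h ht
    rcases eq_or_lt_of_le hs.1 with h3 | h3
    · rw [← h3, h0 _ _ (hne a b hab) (hE a b hH1)] at h
      exact ho x y hxy hH2 (ℓ a) (fun h' => hax (hℓ h')) (fun h' => hay (hℓ h')) t' ht h.symm
    rcases eq_or_lt_of_le hs.2 with h4 | h4
    · rw [h4, h1 _ _ (hne a b hab) (hE a b hH1)] at h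
      exact ho x y hxy hH2 (ℓ b) (fun h' => hbx (hℓ h')) (fun h' => hby (hℓ h')) t' ht h.symm
    rcases eq_or_lt_of_le ht.1 with h5 | h5
    · rw [← h5, h0 _ _ (hne x y hxy) (hE x y hH2)] at h
      exact ho a b hab hH1 (ℓ x) (fun h' => hax (hℓ h'.symm)) (fun h' => hbx (hℓ h'.symm)) s' hs h
    rcases eq_or_lt_of_le ht.2 with h6 | h6
    · rw [h6, h1 _ _ (hne x y hxy) (hE x y hH2)] at h
      exact ho a b hab hH1 (ℓ y) (fun h' => hay (hℓ h'.symm)) (fun h' => hby (hℓ h'.symm)) s' hs h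
    exact hno _ _ _ _ (hne a b hab) (hne x y hxy) (hE a b hH1) (hE x y hH2)
      (fun h' => hax (hℓ h')) (fun h' => hay (hℓ h')) (fun h' => hbx (hℓ h'))
      (fun h' => hby (hℓ h')) s' t' h3 h4 h5 h6 h
  rcases hstd with hstd | hstd
  · exact generic 10 sg1 rep1 tI1 tP1 certs1 (by decide) (by decide) tab1 ok1 cov1
      (fun a b => H (ℓ a) (ℓ b)) (fun a b => hHs _ _) hstd m hm'
  · exact generic 5 sg2 rep2 tI2 tP2 certs2 (by decide) (by decide) tab2 ok2 cov2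
      (fun a b => H (ℓ a) (ℓ b)) (fun a b => hHs _ _) hstd m hm'

/-- A crossing gives at least five elements of the crossing set. -/
lemma five_le (c : Fin 9 → Fin 9 → Fin 2) (hc : ∀ u v, u ≠ v → c u v = c v u)
    (γ : Fin 2 → Fin 9 → Fin 9 → ℝ → ℂ)
    (hrev : ∀ i u v, u ≠ v → c u v = i → ∀ t : ℝ, 0 ≤ t → t ≤ 1 → γ i v u t = γ i u v (1 - t))
    (i : Fin 2) (u v a b : Fin 9) (z : ℂ)
    (hx : (i, u, v, a, b, z) ∈ CS (⊤ : SimpleGraph (Fin 9)) c γ) :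
    ∃ A : Finset (Fin 2 × Fin 9 × Fin 9 × Fin 9 × Fin 9 × ℂ), A.card = 5 ∧
      (∀ x ∈ A, x.1 = i) ∧ (A : Set _) ⊆ CS (⊤ : SimpleGraph (Fin 9)) c γ := by
  classical
  obtain ⟨huv, hab, h3, h4, h5, h6, ⟨s, hs0, hs1, hs⟩, ⟨t, ht0, ht1, ht⟩⟩ := hx
  simp only at huv hab h3 h4 h5 h6 hs ht
  have huv' : u ≠ v := huv
  have hab' : a ≠ b := hab
  -- one edge reversed
  have r1 : ∃ s : ℝ, 0 < s ∧ s < 1 ∧ γ i v u s = z := ⟨1 - s, by linarith, by linarith, by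
    rw [hrev i u v huv' h3 (1 - s) (by linarith) (by linarith), sub_sub_cancel]; exact hs⟩
  have r2 : ∃ t : ℝ, 0 < t ∧ t < 1 ∧ γ i b a t = z := ⟨1 - t, by linarith, by linarith, by
    rw [hrev i a b hab' h4 (1 - t) (by linarith) (by linarith), sub_sub_cancel]; exact ht⟩
  have r3 : ∃ s : ℝ, 0 < s ∧ s < 1 ∧ γ i u v s = z := ⟨s, hs0, hs1, hs⟩
  have r4 : ∃ t : ℝ, 0 < t ∧ t < 1 ∧ γ i a b t = z := ⟨t, ht0, ht1, ht⟩
  have c1 : c v u = i := by rw [← hc u v huv']; exact h3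
  have c2 : c b a = i := by rw [← hc a b hab']; exact h4
  have d1 : (⊤ : SimpleGraph (Fin 9)).Adj v u := huv.symm
  have d2 : (⊤ : SimpleGraph (Fin 9)).Adj b a := hab.symm
  let x1 : Fin 2 × Fin 9 × Fin 9 × Fin 9 × Fin 9 × ℂ := (i, u, v, a, b, z)
  let x2 : Fin 2 × Fin 9 × Fin 9 × Fin 9 × Fin 9 × ℂ := (i, v, u, a, b, z)
  let x3 : Fin 2 × Fin 9 × Fin 9 × Fin 9 × Fin 9 × ℂ := (i, u, v, b, a, z)
  let x4 : Fin 2 × Fin 9 × Fin 9 × Fin 9 × Fin 9 × ℂ := (i, v, u, b, a, z)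
  let x5 : Fin 2 × Fin 9 × Fin 9 × Fin 9 × Fin 9 × ℂ := (i, a, b, u, v, z)
  have g1 : ∀ x y : Fin 2 × Fin 9 × Fin 9 × Fin 9 × Fin 9 × ℂ, x = y → x.2.1 = y.2.1 :=
    fun x y h => by rw [h]
  have g2 : ∀ x y : Fin 2 × Fin 9 × Fin 9 × Fin 9 × Fin 9 × ℂ, x = y → x.2.2.1 = y.2.2.1 :=
    fun x y h => by rw [h]
  have g3 : ∀ x y : Fin 2 × Fin 9 × Fin 9 × Fin 9 × Fin 9 × ℂ, x = y → x.2.2.2.1 = y.2.2.2.1 :=
    fun x y h => by rw [h]
  have n12 : x1 ≠ x2 := fun h => huv' (g1 _ _ h)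
  have n13 : x1 ≠ x3 := fun h => hab' (g3 _ _ h)
  have n14 : x1 ≠ x4 := fun h => huv' (g1 _ _ h)
  have n15 : x1 ≠ x5 := fun h => h5 ⟨g1 _ _ h, g2 _ _ h⟩
  have n23 : x2 ≠ x3 := fun h => huv' (g1 _ _ h).symm
  have n24 : x2 ≠ x4 := fun h => hab' (g3 _ _ h)
  have n25 : x2 ≠ x5 := fun h => h6 ⟨g2 _ _ h, g1 _ _ h⟩
  have n34 : x3 ≠ x4 := fun h => huv' (g1 _ _ h)
  have n35 : x3 ≠ x5 := fun h => h5 ⟨g1 _ _ h, g2 _ _ h⟩
  have n45 : x4 ≠ x5 := fun h => h6 ⟨g2 _ _ h, g1 _ _ h⟩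
  refine ⟨{x1, x2, x3, x4, x5}, ?_, ?_, ?_⟩
  · rw [Finset.card_insert_of_notMem (by
        simp only [Finset.mem_insert, Finset.mem_singleton, not_or]; exact ⟨n12, n13, n14, n15⟩),
      Finset.card_insert_of_notMem (by
        simp only [Finset.mem_insert, Finset.mem_singleton, not_or]; exact ⟨n23, n24, n25⟩),
      Finset.card_insert_of_notMem (by
        simp only [Finset.mem_insert, Finset.mem_singleton, not_or]; exact ⟨n34, n35⟩),
      Finset.card_insert_of_notMem (by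
        simp only [Finset.mem_singleton]; exact n45), Finset.card_singleton]
  · intro x hx
    simp only [Finset.mem_insert, Finset.mem_singleton] at hx
    rcases hx with rfl | rfl | rfl | rfl | rfl <;> rfl
  · intro x hx
    simp only [Finset.coe_insert, Finset.coe_singleton, Set.mem_insert_iff,
      Set.mem_singleton_iff] at hx
    rcases hx with rfl | rfl | rfl | rfl | rfl
    · exact ⟨huv, hab, h3, h4, h5, h6, r3, r4⟩
    · exact ⟨d1, hab, c1, h4, fun h => h6 ⟨h.2, h.1⟩, fun h => h5 ⟨h.2, h.1⟩, r1, r4⟩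
    · exact ⟨huv, d2, h3, c2, h6, h5, r3, r2⟩
    · exact ⟨d1, d2, c1, c2, fun h => h5 ⟨h.2, h.1⟩, fun h => h6 ⟨h.2, h.1⟩, r1, r2⟩
    · exact ⟨hab, huv, h4, h3, fun h => h5 ⟨h.1.symm, h.2.symm⟩,
        fun h => h6 ⟨h.2.symm, h.1.symm⟩, r4, r3⟩

end Pool.Agent.Helper770.K9
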