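import Pool.Agent.Helper770.EdgeSep

set_option autoImplicit false

namespace Pool.Agent.Helper770.Levels

open Finset Pool.Agent.Helper770.Crossing Pool.Agent.Helper770.Sep
  Pool.Agent.Helper770.EdgeSep

variable {V : Type*} {G H : SimpleGraph V}

/-- Restriction of a drawing to a subgraph. -/
def restrict (D : Drawing G) (h : H ≤ G) : Drawing H where
  pos := D.pos
  pos_injective := D.pos_injective
  arc := D.arc
  arc_continuousOn e he := D.arc_continuousOn e (SimpleGraph.edgeSet_subset_edgeSet.mpr h he)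
  arc_injOn e he := D.arc_injOn e (SimpleGraph.edgeSet_subset_edgeSet.mpr h he)
  arc_ends u v huv := D.arc_ends u v (h huv)
  arc_avoids e he := D.arc_avoids e (SimpleGraph.edgeSet_subset_edgeSet.mpr h he)

lemma restrict_crossings_subset (D : Drawing G) (h : H ≤ G) :
    (restrict D h).crossings ⊆ D.crossings := by
  rintro x ⟨e, he, f, hf, hef, hx, h1, h2⟩
  exact ⟨e, SimpleGraph.edgeSet_subset_edgeSet.mpr h he, f,
    SimpleGraph.edgeSet_subset_edgeSet.mpr h hf, hef, hx, h1, h2⟩

/-- The part of a graph inside a vertex set. -/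
def inside (G : SimpleGraph V) (U : Finset V) : SimpleGraph V where
  Adj x y := G.Adj x y ∧ x ∈ U ∧ y ∈ U
  symm := ⟨fun _ _ h => ⟨h.1.symm, h.2.2, h.2.1⟩⟩
  loopless := ⟨fun _ h => h.1.ne rfl⟩

lemma inside_le (G : SimpleGraph V) (U : Finset V) : inside G U ≤ G := fun _ _ h => h.1

lemma mem_of_inside {U : Finset V} {e : Sym2 V} (he : e ∈ (inside G U).edgeSet) :
    ∀ v ∈ e, v ∈ U := by
  induction e with
  | _ x y =>
    intro v hv
    rw [Sym2.mem_iff] at hv
    rcases hv with rfl | rfl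
    · exact he.2.1
    · exact he.2.2

variable [Fintype V]

open Classical in
/-- the connected components -/
noncomputable def comps (G : SimpleGraph V) : Finset (Finset V) :=
  univ.filter (fun U => Conn G U ∧ ∀ x ∈ U, ∀ y, G.Adj x y → y ∈ U)

omit [Fintype V] in
lemma mem_comps [Fintype V] {U : Finset V} : U ∈ comps G ↔
    Conn G U ∧ ∀ x ∈ U, ∀ y, G.Adj x y → y ∈ U := by
  classical
  simp [comps]

lemma comps_disjoint (U U' : Finset V) (hU : U ∈ comps G) (hU' : U' ∈ comps G) (hne : U ≠ U') :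
    Disjoint U U' := by
  rw [disjoint_left]
  intro x hx hx'
  rw [mem_comps] at hU hU'
  apply hne
  apply Subset.antisymm
  · exact hU.1.induct (· ∈ U') hx hx' (fun a _ b _ hab ha => hU'.2 a ha b hab)
  · exact hU'.1.induct (· ∈ U) hx' hx (fun a _ b _ hab ha => hU.2 a ha b hab)

lemma exists_comp (T : Finset V) (hT : Conn G T) : ∃ U ∈ comps G, T ⊆ U := by
  classical
  obtain ⟨B, hTB, hB, -, hmax⟩ := exists_max_conn hT (disjoint_empty_right T)
  refine ⟨B, mem_comps.mpr ⟨hB, fun x hx y hxy => ?_⟩, hTB⟩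
  rcases hmax x hx y hxy with h | h
  · exact h
  · simp at h

lemma sum_card_comps (𝒰 : Finset (Finset V)) (h𝒰 : 𝒰 ⊆ comps G) :
    ∑ U ∈ 𝒰, U.card ≤ Fintype.card V := by
  classical
  rw [← card_biUnion (fun U hU U' hU' hne => comps_disjoint U U' (h𝒰 hU) (h𝒰 hU') hne)]
  exact card_le_univ _

lemma sum_crossings_comps (D : Drawing G) (hfin : D.crossings.Finite)
    (𝒰 : Finset (Finset V)) (h𝒰 : 𝒰 ⊆ comps G) :
    ∑ U ∈ 𝒰, (restrict D (inside_le G U)).crossings.ncard ≤ D.crossings.ncard := by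
  classical
  have hf : ∀ U, (restrict D (inside_le G U)).crossings.Finite := fun U =>
    hfin.subset (restrict_crossings_subset D _)
  have h1 : ∀ U, (restrict D (inside_le G U)).crossings.ncard = (hf U).toFinset.card :=
    fun U => Set.ncard_eq_toFinset_card _ (hf U)
  rw [Set.ncard_eq_toFinset_card _ hfin, sum_congr rfl (fun U _ => h1 U), ← card_biUnion]
  · apply card_le_card
    intro x hx
    rw [mem_biUnion] at hx
    obtain ⟨U, -, hxU⟩ := hx
    rw [Set.Finite.mem_toFinset] at hxU ⊢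
    exact restrict_crossings_subset D _ hxU
  · intro U hU U' hU' hne
    rw [Function.onFun, disjoint_left]
    intro x hx hx'
    rw [Set.Finite.mem_toFinset] at hx hx'
    obtain ⟨e, he, f, hf, -, hxe, -⟩ := hx
    obtain ⟨e', he', f', hf', -, hxe', -⟩ := hx'
    have hdis := comps_disjoint U U' (h𝒰 hU) (h𝒰 hU') hne
    have : e = e' ∨ e = f' := by
      rcases Sym2.eq_iff.mp (hxe.symm.trans hxe') with h | h
      · exact Or.inl h.1
      · exact Or.inr h.1
    obtain ⟨v, hv⟩ : ∃ v, v ∈ e := ⟨e.out.1, Sym2.out_fst_mem e⟩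
    have hvU := mem_of_inside he v hv
    rcases this with rfl | rfl
    · exact disjoint_left.mp hdis hvU (mem_of_inside he' v hv)
    · exact disjoint_left.mp hdis hvU (mem_of_inside hf' v hv)

lemma dg_inside (U : Finset V) (d : ℕ) (hd : ∀ v, dg G v ≤ d) :
    ∑ v, dg (inside G U) v ^ 2 ≤ d ^ 2 * U.card := by
  classical
  have h1 : ∀ v, v ∉ U → dg (inside G U) v = 0 := by
    intro v hv
    unfold dg
    rw [card_eq_zero, filter_eq_empty_iff]
    intro e he hve
    exact hv (mem_of_inside (mem_edges.mp he) v hve)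
  have h2 : ∀ v, dg (inside G U) v ≤ d := by
    intro v
    refine le_trans (card_le_card ?_) (hd v)
    intro e he
    rw [mem_filter, mem_edges] at he ⊢
    exact ⟨SimpleGraph.edgeSet_subset_edgeSet.mpr (inside_le G U) he.1, he.2⟩
  calc ∑ v, dg (inside G U) v ^ 2 = ∑ v ∈ U, dg (inside G U) v ^ 2 := by
        rw [← sum_subset (subset_univ U)]
        intro v _ hv
        rw [h1 v hv]; rfl
    _ ≤ ∑ v ∈ U, d ^ 2 := sum_le_sum (fun v _ => Nat.pow_le_pow_left (h2 v) 2)
    _ = d ^ 2 * U.card := by rw [sum_const, smul_eq_mul, mul_comm]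

/-- One level: halving all components. -/
theorem level (D : Drawing G) (hfin : D.crossings.Finite) (d m : ℕ) (hd1 : 1 ≤ d)
    (hd : ∀ v, dg G v ≤ d) (hm : 2 ≤ m) (hG : ∀ T, Conn G T → T.card ≤ m) :
    ∃ F ⊆ edges G, (∀ T, Conn (G.deleteEdges (F : Set (Sym2 V))) T → 2 * T.card ≤ m) ∧
      F.card ^ 2 * m ≤ 1000 * Fintype.card V *
        (d ^ 2 * Fintype.card V + 4 * D.crossings.ncard) := by
  classical
  let W : Finset V → ℕ := fun U =>
    d ^ 2 * U.card + 4 * (restrict D (inside_le G U)).crossings.ncard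
  let R : Finset V → ℕ := fun U => Nat.sqrt (5 * W U) + 1
  have hsep : ∀ U : Finset V, ∃ F ⊆ edges (inside G U), F.card ≤ 5 * R U ∧
      ∀ T : Finset V, Conn ((inside G U).deleteEdges (F : Set (Sym2 V))) T →
      2 ≤ T.card → 2 * (T ∩ U).card ≤ U.card := by
    intro U
    have := edge_separator (restrict D (inside_le G U))
      (hfin.subset (restrict_crossings_subset D _)) U (R U) (Nat.succ_pos _) ?_
    · convert this
    · have h1 : 5 * W U ≤ (R U) ^ 2 := by
        have := Nat.lt_succ_sqrt (5 * W U)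
        rw [sq]; exact this.le
      refine le_trans (Nat.mul_le_mul_left 5 ?_) h1
      exact Nat.add_le_add_right (dg_inside U d hd) _
  choose FU hFU hFc hFT using hsep
  let big : Finset (Finset V) := (comps G).filter (fun U => m < 2 * U.card)
  have hbig : big ⊆ comps G := filter_subset _ _
  refine ⟨big.biUnion FU, ?_, ?_, ?_⟩
  · intro e he
    rw [mem_biUnion] at he
    obtain ⟨U, -, he⟩ := he
    exact mem_edges.mpr (SimpleGraph.edgeSet_subset_edgeSet.mpr (inside_le G U)
      (mem_edges.mp (hFU U he)))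
  · intro T hT
    have hTG : Conn G T := conn_of_induct hT.1 (fun p hp hs => by
      obtain ⟨x, hx, hpx⟩ := hp
      exact hT.induct p hx hpx (fun a ha b hb hab =>
        hs a ha b hb (SimpleGraph.deleteEdges_adj.mp hab).1))
    obtain ⟨U, hU, hTU⟩ := exists_comp T hTG
    have hTUc := card_le_card hTU
    by_cases hb : m < 2 * U.card
    · by_cases h2 : 2 ≤ T.card
      · have hTin : Conn ((inside G U).deleteEdges (FU U : Set (Sym2 V))) T := by
          refine conn_of_induct hT.1 (fun p hp hs => ?_)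
          obtain ⟨x, hx, hpx⟩ := hp
          refine hT.induct p hx hpx (fun a ha b hb' hab => hs a ha b hb' ?_)
          rw [SimpleGraph.deleteEdges_adj] at hab ⊢
          refine ⟨⟨hab.1, hTU ha, hTU hb'⟩, fun hmem => hab.2 ?_⟩
          rw [mem_coe] at hmem ⊢
          exact mem_biUnion.mpr ⟨U, mem_filter.mpr ⟨hU, hb⟩, hmem⟩
        have h3 := hFT U T hTin h2
        rw [inter_eq_left.mpr hTU] at h3
        exact h3.trans (hG U (mem_comps.mp hU).1)
      · omega
    · omega
  · have hbm : big.card * m ≤ 2 * Fintype.card V := by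
      calc big.card * m = ∑ U ∈ big, m := by rw [sum_const, smul_eq_mul]
        _ ≤ ∑ U ∈ big, 2 * U.card := sum_le_sum (fun U hU => (mem_filter.mp hU).2.le)
        _ = 2 * ∑ U ∈ big, U.card := by rw [mul_sum]
        _ ≤ 2 * Fintype.card V := Nat.mul_le_mul_left 2 (sum_card_comps big hbig)
    have hW : ∑ U ∈ big, W U ≤ d ^ 2 * Fintype.card V + 4 * D.crossings.ncard := by
      simp only [W]
      rw [sum_add_distrib, ← mul_sum, ← mul_sum]
      exact Nat.add_le_add (Nat.mul_le_mul_left _ (sum_card_comps big hbig))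
        (Nat.mul_le_mul_left _ (sum_crossings_comps D hfin big hbig))
    have hRW : ∀ U ∈ big, (5 * R U) ^ 2 ≤ 500 * W U := by
      intro U hU
      have hUne : 1 ≤ U.card := by
        obtain ⟨x, hx⟩ := (mem_comps.mp (hbig hU)).1.1
        exact card_pos.mpr ⟨x, hx⟩
      have hW1 : 1 ≤ W U := by
        have : 1 ≤ d ^ 2 * U.card := Nat.one_le_iff_ne_zero.mpr
          (Nat.mul_ne_zero (pow_ne_zero 2 (by omega)) (by omega))
        exact this.trans (Nat.le_add_right _ _)
      have hs1 : 1 ≤ Nat.sqrt (5 * W U) := by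
        rw [Nat.le_sqrt]; omega
      have hs2 : Nat.sqrt (5 * W U) ^ 2 ≤ 5 * W U := Nat.sqrt_le' _
      simp only [R]
      nlinarith [hs1, hs2]
    have hF : (big.biUnion FU).card ≤ ∑ U ∈ big, 5 * R U :=
      card_biUnion_le.trans (sum_le_sum (fun U _ => hFc U))
    calc (big.biUnion FU).card ^ 2 * m ≤ (∑ U ∈ big, 5 * R U) ^ 2 * m :=
          Nat.mul_le_mul_right _ (Nat.pow_le_pow_left hF 2)
      _ ≤ (big.card * ∑ U ∈ big, (5 * R U) ^ 2) * m :=
          Nat.mul_le_mul_right _ sq_sum_le_card_mul_sum_sq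
      _ ≤ (big.card * ∑ U ∈ big, 500 * W U) * m := by
          apply Nat.mul_le_mul_right
          apply Nat.mul_le_mul_left
          exact sum_le_sum hRW
      _ = (big.card * m) * (500 * ∑ U ∈ big, W U) := by rw [← mul_sum]; ring
      _ ≤ (2 * Fintype.card V) * (500 * (d ^ 2 * Fintype.card V + 4 * D.crossings.ncard)) :=
          Nat.mul_le_mul hbm (Nat.mul_le_mul_left _ hW)
      _ = 1000 * Fintype.card V * (d ^ 2 * Fintype.card V + 4 * D.crossings.ncard) := by ring

/-- Dyadic iteration. -/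
theorem dyadic (D : Drawing G) (hfin : D.crossings.Finite) (d k : ℕ) (hd1 : 1 ≤ d)
    (hd : ∀ v, dg G v ≤ d) (hk : Fintype.card V = 2 ^ k) (j : ℕ) (hj : j ≤ k) :
    ∃ F ⊆ edges G, (∀ T, Conn (G.deleteEdges (F : Set (Sym2 V))) T → T.card ≤ 2 ^ (k - j)) ∧
      F.card ^ 2 ≤ 6400 * (d ^ 2 * 2 ^ k + 4 * D.crossings.ncard) * 2 ^ j := by
  classical
  induction j with
  | zero =>
    refine ⟨∅, empty_subset _, fun T _ => ?_, by simp⟩
    rw [Nat.sub_zero, ← hk]
    exact card_le_univ T
  | succ j ih =>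
    obtain ⟨F, hF, hT, hFc⟩ := ih (by omega)
    have hle : G.deleteEdges (F : Set (Sym2 V)) ≤ G := SimpleGraph.deleteEdges_le _
    have hm : 2 ≤ 2 ^ (k - j) := by
      calc 2 = 2 ^ 1 := rfl
        _ ≤ 2 ^ (k - j) := Nat.pow_le_pow_right (by norm_num) (by omega)
    have hd' : ∀ v, dg (G.deleteEdges (F : Set (Sym2 V))) v ≤ d := by
      intro v
      refine le_trans (card_le_card ?_) (hd v)
      intro e he
      rw [mem_filter, mem_edges] at he ⊢
      exact ⟨SimpleGraph.edgeSet_subset_edgeSet.mpr hle he.1, he.2⟩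
    obtain ⟨F', hF', hT', hFc'⟩ := level (restrict D hle)
      (hfin.subset (restrict_crossings_subset D hle)) d (2 ^ (k - j)) hd1 hd' hm hT
    have hX : (restrict D hle).crossings.ncard ≤ D.crossings.ncard :=
      Set.ncard_le_ncard (restrict_crossings_subset D hle) hfin
    refine ⟨F ∪ F', ?_, ?_, ?_⟩
    · intro e he
      rcases mem_union.mp he with he | he
      · exact hF he
      · exact mem_edges.mpr (SimpleGraph.edgeSet_subset_edgeSet.mpr hle (mem_edges.mp (hF' he)))
    · intro T hT1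
      rw [coe_union, ← SimpleGraph.deleteEdges_deleteEdges] at hT1
      have := hT' T hT1
      have h2 : 2 ^ (k - j) = 2 * 2 ^ (k - (j + 1)) := by
        rw [← pow_succ']; congr 1; omega
      omega
    · rw [hk] at hFc'
      have hpow : 2 ^ k = 2 ^ j * 2 ^ (k - j) := by rw [← pow_add]; congr 1; omega
      have hpos : 0 < 2 ^ (k - j) := by positivity
      have h1 : F'.card ^ 2 ≤ 1000 * 2 ^ j * (d ^ 2 * 2 ^ k + 4 * D.crossings.ncard) := by
        apply Nat.le_of_mul_le_mul_right _ hpos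
        calc F'.card ^ 2 * 2 ^ (k - j)
            ≤ 1000 * 2 ^ k * (d ^ 2 * 2 ^ k + 4 * (restrict D hle).crossings.ncard) := hFc'
          _ ≤ 1000 * 2 ^ k * (d ^ 2 * 2 ^ k + 4 * D.crossings.ncard) := by gcongr
          _ = 1000 * 2 ^ j * (d ^ 2 * 2 ^ k + 4 * D.crossings.ncard) * 2 ^ (k - j) := by
            nth_rewrite 1 [hpow]; ring
      have h2 : (F ∪ F').card ≤ F.card + F'.card := card_union_le _ _
      set Wt := d ^ 2 * 2 ^ k + 4 * D.crossings.ncard
      have h3 : (F ∪ F').card ^ 2 ≤ (F.card + F'.card) ^ 2 := Nat.pow_le_pow_left h2 2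
      have h4 : 20 * (F.card * F'.card) ≤ 4 * F.card ^ 2 + 25 * F'.card ^ 2 := by
        have : (0 : ℤ) ≤ (2 * (F.card : ℤ) - 5 * F'.card) ^ 2 := sq_nonneg _
        zify; nlinarith
      have h5 : 2 ^ (j + 1) = 2 * 2 ^ j := by rw [pow_succ]; ring
      rw [h5]
      have h6 : (F.card + F'.card) ^ 2 = F.card ^ 2 + 2 * (F.card * F'.card) + F'.card ^ 2 := by ring
      have h7 : 6400 * Wt * (2 * 2 ^ j) = 12800 * (Wt * 2 ^ j) := by ring
      have h8 : 6400 * Wt * 2 ^ j = 6400 * (Wt * 2 ^ j) := by ring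
      have h9 : 1000 * 2 ^ j * Wt = 1000 * (Wt * 2 ^ j) := by ring
      rw [h7]; rw [h8] at hFc; rw [h9] at h1
      omega

end Pool.Agent.Helper770.Levels
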