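import Pool.Agent.Helper770.VanKampen
import Pool.Agent.Helper770.Sep
import Pool.Agent.Helper770.CrossingDefs

set_option autoImplicit false

namespace Pool.Agent.Helper770.Planar

open Finset Pool.Agent.Helper770.Crossing Pool.Agent.Helper770.Sep

variable {V : Type*} {G : SimpleGraph V}

/-- Consecutive nodes along an edge. -/
def link (D : Drawing G) (N : Finset ℂ) (e : Sym2 V) (s t : ℝ) : Prop :=
  e ∈ G.edgeSet ∧ 0 ≤ s ∧ s < t ∧ t ≤ 1 ∧ ∀ r, s < r → r < t → D.arc e r ∉ N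

/-- The planarisation on the finite set `N` of nodes. -/
def planar (D : Drawing G) (N : Finset ℂ) : SimpleGraph N where
  Adj z z' := z ≠ z' ∧ ∃ e s t, link D N e s t ∧
    ((D.arc e s = z ∧ D.arc e t = z') ∨ (D.arc e s = z' ∧ D.arc e t = z))
  symm := ⟨fun z z' h => by
    obtain ⟨h1, e, s, t, h2, h3⟩ := h
    exact ⟨h1.symm, e, s, t, h2, h3.symm⟩⟩
  loopless := ⟨fun z h => h.1 rfl⟩

/-- The union of a set of nodes and of all links between them. -/
def thick (D : Drawing G) (N : Finset ℂ) (C : Set ℂ) : Set ℂ :=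
  C ∪ {y | ∃ e s t, link D N e s t ∧ D.arc e s ∈ C ∧ D.arc e t ∈ C ∧
    ∃ r ∈ Set.Icc s t, y = D.arc e r}

lemma thick_mono (D : Drawing G) (N : Finset ℂ) {C C' : Set ℂ} (h : C ⊆ C') :
    thick D N C ⊆ thick D N C' := by
  rintro y (hy | ⟨e, s, t, hl, hs, ht, hr⟩)
  · exact Or.inl (h hy)
  · exact Or.inr ⟨e, s, t, hl, h hs, h ht, hr⟩

lemma thick_disjoint (D : Drawing G) (N : Finset ℂ)
    (hcr : ∀ x ∈ D.crossings, x.2 ∈ N)
    (C C' : Set ℂ) (hC : ∀ z ∈ C, z ∈ N) (hC' : ∀ z ∈ C', z ∈ N) (hd : Disjoint C C') :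
    Disjoint (thick D N C) (thick D N C') := by
  -- a node in `thick C` is in `C`
  have key : ∀ C : Set ℂ, ∀ y ∈ thick D N C, y ∈ N → y ∈ C := by
    rintro C y (hy | ⟨e, s, t, hl, hs, ht, r, hr, rfl⟩) hyN
    · exact hy
    · rcases eq_or_lt_of_le hr.1 with h1 | h1
      · rw [← h1]; exact hs
      · rcases eq_or_lt_of_le hr.2 with h2 | h2
        · rw [h2]; exact ht
        · exact absurd hyN (hl.2.2.2.2 r h1 h2)
  rw [Set.disjoint_left]
  intro y hy hy'
  by_cases hyN : y ∈ N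
  · exact Set.disjoint_left.mp hd (key C y hy hyN) (key C' y hy' hyN)
  · rcases hy with hy | ⟨e, s, t, hl, hs, ht, r, hr, hyr⟩
    · exact hyN (hC y hy)
    rcases hy' with hy' | ⟨e', s', t', hl', hs', ht', r', hr', hyr'⟩
    · exact hyN (hC' y hy')
    have hrs : s < r := lt_of_le_of_ne hr.1 (fun h => hyN (by rw [hyr, ← h]; exact hC _ hs))
    have hrt : r < t := lt_of_le_of_ne hr.2 (fun h => hyN (by rw [hyr, h]; exact hC _ ht))
    have hrs' : s' < r' := lt_of_le_of_ne hr'.1 (fun h => hyN (by rw [hyr', ← h]; exact hC' _ hs'))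
    have hrt' : r' < t' := lt_of_le_of_ne hr'.2 (fun h => hyN (by rw [hyr', h]; exact hC' _ ht'))
    obtain ⟨he, h0, hst, h1, hno⟩ := hl
    obtain ⟨he', h0', hst', h1', hno'⟩ := hl'
    by_cases hee : e = e'
    · subst hee
      have hrr : r = r' := D.arc_injOn e he ⟨by linarith, by linarith⟩ ⟨by linarith, by linarith⟩
        (hyr.symm.trans hyr')
      subst hrr
      have a1 : s' ≤ s := by
        by_contra hlt
        push Not at hlt
        exact hno s' hlt (by linarith) (hC' _ hs')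
      have a2 : s ≤ s' := by
        by_contra hlt
        push Not at hlt
        exact hno' s hlt (by linarith) (hC _ hs)
      have : s = s' := le_antisymm a2 a1
      subst this
      exact Set.disjoint_left.mp hd hs hs'
    · refine hyN (hcr (s(e, e'), y) ⟨e, he, e', he', hee, rfl, ⟨r, ?_, hyr.symm⟩,
        ⟨r', ?_, hyr'.symm⟩⟩)
      · exact ⟨by linarith, by linarith⟩
      · exact ⟨by linarith, by linarith⟩

lemma joined_of_conn (D : Drawing G) (N : Finset ℂ) (C : Finset N) (hC : Conn (planar D N) C)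
    (z z' : N) (hz : z ∈ C) (hz' : z' ∈ C) :
    JoinedIn (thick D N (Subtype.val '' (C : Set N))) (z : ℂ) (z' : ℂ) := by
  have hmem : ∀ x ∈ C, (x : ℂ) ∈ Subtype.val '' (C : Set N) := fun x hx => ⟨x, hx, rfl⟩
  refine hC.induct (fun x => JoinedIn (thick D N (Subtype.val '' (C : Set N))) (z : ℂ) (x : ℂ))
    hz (JoinedIn.refl (Or.inl (hmem z hz))) ?_ z' hz'
  rintro x hx y hy ⟨-, e, s, t, hl, hxy⟩ hzx
  refine hzx.trans ?_
  have hcont : ContinuousOn (D.arc e) (Set.Icc s t) :=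
    (D.arc_continuousOn e hl.1).mono (Set.Icc_subset_Icc hl.2.1 hl.2.2.2.1)
  have hpc : IsPathConnected (D.arc e '' Set.Icc s t) :=
    ((convex_Icc s t).isPathConnected ⟨s, Set.left_mem_Icc.mpr hl.2.2.1.le⟩).image' hcont
  have hsub : D.arc e '' Set.Icc s t ⊆ thick D N (Subtype.val '' (C : Set N)) := by
    rintro _ ⟨r, hr, rfl⟩
    refine Or.inr ⟨e, s, t, hl, ?_, ?_, r, hr, rfl⟩
    · rcases hxy with ⟨h1, h2⟩ | ⟨h1, h2⟩
      · rw [h1]; exact hmem x hx
      · rw [h1]; exact hmem y hy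
    · rcases hxy with ⟨h1, h2⟩ | ⟨h1, h2⟩
      · rw [h2]; exact hmem y hy
      · rw [h2]; exact hmem x hx
  have hj := (hpc.joinedIn (D.arc e s) ⟨s, Set.left_mem_Icc.mpr hl.2.2.1.le, rfl⟩
    (D.arc e t) ⟨t, Set.right_mem_Icc.mpr hl.2.2.1.le, rfl⟩).mono hsub
  rcases hxy with ⟨h1, h2⟩ | ⟨h1, h2⟩
  · rw [h1, h2] at hj; exact hj
  · rw [h1, h2] at hj; exact hj.symm

lemma noK5 (D : Drawing G) (N : Finset ℂ) (hcr : ∀ x ∈ D.crossings, x.2 ∈ N) :
    NoK5 (planar D N) := by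
  classical
  intro C hC hdis hadj
  have hroot : ∀ i, ∃ z, z ∈ C i := fun i => (hC i).1
  choose root hroot using hroot
  refine VanKampen.k5_joined (fun i => (root i : ℂ))
    (fun a b => thick D N (Subtype.val '' ((C a ∪ C b : Finset N) : Set N))) ?_ ?_
  · intro a b hab
    exact joined_of_conn D N (C a ∪ C b) (conn_union_adj (hC a) (hC b) (hadj a b hab.ne))
      (root a) (root b) (mem_union_left _ (hroot a)) (mem_union_right _ (hroot b))
  · intro a b c d hab hcd hac had hbc hbd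
    refine thick_disjoint D N hcr _ _ ?_ ?_ ?_
    · rintro _ ⟨z, -, rfl⟩; exact z.2
    · rintro _ ⟨z, -, rfl⟩; exact z.2
    · rw [Set.disjoint_image_iff Subtype.val_injective]
      rw [disjoint_coe, disjoint_union_left, disjoint_union_right, disjoint_union_right]
      exact ⟨⟨hdis a c hac, hdis a d had⟩, ⟨hdis b c hbc, hdis b d hbd⟩⟩

/-- The nodes on a given edge form a connected set. -/
lemma edge_nodes_conn (D : Drawing G) (N : Finset ℂ) (hpos : ∀ v, D.pos v ∈ N)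
    (e : Sym2 V) (he : e ∈ G.edgeSet) (Ne : Finset N)
    (hNe : ∀ z : N, z ∈ Ne ↔ ∃ t ∈ Set.Icc (0 : ℝ) 1, D.arc e t = z) :
    Conn (planar D N) Ne := by
  classical
  have h0 : D.arc e 0 ∈ N := by
    induction e with
    | _ u v =>
      rcases D.arc_ends u v he with h | h
      · rw [h.1]; exact hpos _
      · rw [h.1]; exact hpos _
  refine conn_of_induct ⟨⟨D.arc e 0, h0⟩, (hNe _).mpr ⟨0, by simp, rfl⟩⟩ ?_
  rintro p ⟨a₀, ha₀, hpa₀⟩ hs
  by_contra hcon
  push Not at hcon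
  obtain ⟨b₀, hb₀, hpb₀⟩ := hcon
  have hτ : ∀ z : N, ∃ t : ℝ, z ∈ Ne → t ∈ Set.Icc (0 : ℝ) 1 ∧ D.arc e t = z := by
    intro z
    by_cases h : z ∈ Ne
    · obtain ⟨t, ht, hz⟩ := (hNe z).mp h
      exact ⟨t, fun _ => ⟨ht, hz⟩⟩
    · exact ⟨0, fun h' => absurd h' h⟩
  choose τ hτ using hτ
  have hinj : ∀ x ∈ Ne, ∀ y ∈ Ne, τ x = τ y → x = y := by
    intro x hx y hy hxy
    apply Subtype.ext
    rw [← (hτ x hx).2, ← (hτ y hy).2, hxy]
  obtain ⟨⟨a, b⟩, hab, hmin⟩ := exists_min_image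
    ((Ne.filter p) ×ˢ (Ne.filter (fun x => ¬ p x))) (fun x => |τ x.1 - τ x.2|)
    ⟨(a₀, b₀), by simp [ha₀, hpa₀, hb₀, hpb₀]⟩
  simp only [mem_product, mem_filter] at hab hmin
  obtain ⟨⟨ha, hpa⟩, hb, hpb⟩ := hab
  have hne : a ≠ b := fun h => hpb (h ▸ hpa)
  have hτne : τ a ≠ τ b := fun h => hne (hinj a ha b hb h)
  -- no node strictly between
  have hbetween : ∀ r, (τ a < r ∧ r < τ b ∨ τ b < r ∧ r < τ a) → D.arc e r ∉ N := by
    intro r hr hrN
    have hr01 : r ∈ Set.Icc (0 : ℝ) 1 := by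
      have h1 := (hτ a ha).1
      have h2 := (hτ b hb).1
      rcases hr with hr | hr
      · exact ⟨by linarith [h1.1], by linarith [h2.2]⟩
      · exact ⟨by linarith [h2.1], by linarith [h1.2]⟩
    have hx : (⟨D.arc e r, hrN⟩ : N) ∈ Ne := (hNe _).mpr ⟨r, hr01, rfl⟩
    have hτx : τ ⟨D.arc e r, hrN⟩ = r :=
      D.arc_injOn e he (hτ _ hx).1 hr01 (hτ _ hx).2
    by_cases hpx : p ⟨D.arc e r, hrN⟩
    · have := hmin (⟨D.arc e r, hrN⟩, b) ⟨⟨hx, hpx⟩, hb, hpb⟩
      simp only [hτx] at this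
      rcases hr with hr | hr
      · rw [abs_of_neg (by linarith), abs_of_neg (by linarith)] at this; linarith
      · rw [abs_of_pos (by linarith), abs_of_pos (by linarith)] at this; linarith
    · have := hmin (a, ⟨D.arc e r, hrN⟩) ⟨⟨ha, hpa⟩, hx, hpx⟩
      simp only [hτx] at this
      rcases hr with hr | hr
      · rw [abs_of_neg (by linarith), abs_of_neg (by linarith)] at this; linarith
      · rw [abs_of_pos (by linarith), abs_of_pos (by linarith)] at this; linarith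
  have hadj : (planar D N).Adj a b := by
    refine ⟨hne, ?_⟩
    rcases lt_or_gt_of_ne hτne with h | h
    · exact ⟨e, τ a, τ b, ⟨he, (hτ a ha).1.1, h, (hτ b hb).1.2,
        fun r h1 h2 => hbetween r (Or.inl ⟨h1, h2⟩)⟩, Or.inl ⟨(hτ a ha).2, (hτ b hb).2⟩⟩
    · exact ⟨e, τ b, τ a, ⟨he, (hτ b hb).1.1, h, (hτ a ha).1.2,
        fun r h1 h2 => hbetween r (Or.inr ⟨h1, h2⟩)⟩, Or.inr ⟨(hτ b hb).2, (hτ a ha).2⟩⟩
  exact hpb (hs a ha b hb hadj hpa)

end Pool.Agent.Helper770.Planar
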