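import Pool.Agent.Helper770.Exist
import Pool.Agent.Helper770.CrossingDefs

set_option autoImplicit false

namespace Pool.Agent.Helper770.Straight

open Pool.Agent.Helper770.Crossing Pool.Agent.Helper770.Exist

/-- orientation of a triple of points -/
def ori (a b c : ℂ) : ℝ := (b.re - a.re) * (c.im - a.im) - (b.im - a.im) * (c.re - a.re)

/-- the point with parameter `t` on the segment from `z` to `w` -/
def seg (z w : ℂ) (t : ℝ) : ℂ := ⟨(1 - t) * z.re + t * w.re, (1 - t) * z.im + t * w.im⟩

lemma seg_zero (z w : ℂ) : seg z w 0 = z := by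
  apply Complex.ext <;> simp [seg]

lemma seg_one (z w : ℂ) : seg z w 1 = w := by
  apply Complex.ext <;> simp [seg]

lemma seg_cont (z w : ℂ) : Continuous (seg z w) := by
  have : seg z w = fun t : ℝ => (((1 - t) * z.re + t * w.re : ℝ) : ℂ) +
      (((1 - t) * z.im + t * w.im : ℝ) : ℂ) * Complex.I := by
    funext t; exact Complex.mk_eq_add_mul_I _ _
  rw [this]; fun_prop

lemma seg_comm (z w : ℂ) (t : ℝ) : seg z w t = seg w z (1 - t) := by
  apply Complex.ext <;> simp only [seg] <;> ring

lemma seg_inj {z w : ℂ} (h : z ≠ w) {s t : ℝ} (hst : seg z w s = seg z w t) : s = t := by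
  have hx := congrArg Complex.re hst
  have hy := congrArg Complex.im hst
  simp only [seg] at hx hy
  by_contra hne
  apply h
  have hne' : s - t ≠ 0 := sub_ne_zero.mpr hne
  apply Complex.ext
  · have : (s - t) * (z.re - w.re) = 0 := by linarith
    rcases mul_eq_zero.mp this with h1 | h1
    · exact absurd h1 hne'
    · linarith
  · have : (s - t) * (z.im - w.im) = 0 := by linarith
    rcases mul_eq_zero.mp this with h1 | h1
    · exact absurd h1 hne'
    · linarith

lemma ori_seg {z w a b : ℂ} {s t : ℝ} (h : seg z w s = seg a b t) :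
    (1 - t) * ori z w a + t * ori z w b = 0 := by
  have hx := congrArg Complex.re h
  have hy := congrArg Complex.im h
  simp only [seg] at hx hy
  simp only [ori]
  linear_combination (-(w.re - z.re)) * hy + (w.im - z.im) * hx

lemma ori_self₁ (z w : ℂ) : ori z w z = 0 := by simp [ori]
lemma ori_self₂ (z w : ℂ) : ori z w w = 0 := by simp only [ori]; ring
lemma ori_swap (a b c : ℂ) : ori b a c = - ori a b c := by simp only [ori]; ring
lemma ori_rot (a b c : ℂ) : ori b c a = ori a b c := by simp only [ori]; ring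
lemma ori_swap' (a b c : ℂ) : ori a c b = - ori a b c := by simp only [ori]; ring

/-- points in general position -/
structure GenPos {V : Type*} (P : V → ℂ) : Prop where
  inj : Function.Injective P
  gen : ∀ a b c, a ≠ b → c ≠ a → c ≠ b → ori (P a) (P b) (P c) ≠ 0

variable {V : Type*} {G : SimpleGraph V} {P : V → ℂ}

/-- The straight-line drawing. -/
noncomputable def straight (G : SimpleGraph V) (P : V → ℂ) (h : GenPos P) : Drawing G where
  pos := P
  pos_injective := h.inj
  arc e := seg (P e.out.1) (P e.out.2)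
  arc_continuousOn e _ := (seg_cont _ _).continuousOn
  arc_injOn e he s _ t _ hst := by
    refine seg_inj (fun hh => ?_) hst
    have hd : ¬ e.IsDiag := G.not_isDiag_of_mem_edgeSet he
    apply hd
    have he' : s(e.out.1, e.out.2) = e := e.out_eq
    rw [← he', Sym2.mk_isDiag_iff]
    exact h.inj hh
  arc_ends u v huv := by
    have he : s((s(u, v)).out.1, (s(u, v)).out.2) = s(u, v) := (s(u, v)).out_eq
    rcases Sym2.eq_iff.mp he with h | h
    · left; rw [h.1, h.2]; exact ⟨seg_zero _ _, seg_one _ _⟩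
    · right; rw [h.1, h.2]; exact ⟨seg_zero _ _, seg_one _ _⟩
  arc_avoids e he t ht w hw := by
    have hd : ¬ e.IsDiag := G.not_isDiag_of_mem_edgeSet he
    have he' : s(e.out.1, e.out.2) = e := e.out_eq
    have hne : e.out.1 ≠ e.out.2 := by
      intro hh
      apply hd
      rw [← he', Sym2.mk_isDiag_iff]
      exact hh
    have hne' : P e.out.1 ≠ P e.out.2 := fun hh => hne (h.inj hh)
    by_cases h1 : w = e.out.1
    · have h2 : seg (P e.out.1) (P e.out.2) t = seg (P e.out.1) (P e.out.2) 0 := by
        rw [hw, seg_zero, h1]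
      exact ht.1.ne' (seg_inj hne' h2)
    by_cases h3 : w = e.out.2
    · have h2 : seg (P e.out.1) (P e.out.2) t = seg (P e.out.1) (P e.out.2) 1 := by
        rw [hw, seg_one, h3]
      exact ht.2.ne (seg_inj hne' h2)
    · have h4 : seg (P e.out.1) (P e.out.2) t = seg (P w) (P w) 0 := by rw [hw, seg_zero]
      have h5 := ori_seg h4
      apply h.gen _ _ w hne h1 h3
      linarith

lemma pt_unique (h : GenPos P) {e f : Sym2 V} (he : e ∈ G.edgeSet) (hf : f ∈ G.edgeSet)
    (hef : e ≠ f) {z z' : ℂ}
    (h1 : z ∈ (straight G P h).arc e '' Set.Ioo (0 : ℝ) 1)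
    (h2 : z ∈ (straight G P h).arc f '' Set.Ioo (0 : ℝ) 1)
    (h3 : z' ∈ (straight G P h).arc e '' Set.Ioo (0 : ℝ) 1)
    (h4 : z' ∈ (straight G P h).arc f '' Set.Ioo (0 : ℝ) 1) : z = z' := by
  obtain ⟨s, -, hs⟩ := h1
  obtain ⟨t, -, ht⟩ := h2
  obtain ⟨s', -, hs'⟩ := h3
  obtain ⟨t', -, ht'⟩ := h4
  change seg (P e.out.1) (P e.out.2) s = z at hs
  change seg (P f.out.1) (P f.out.2) t = z at ht
  change seg (P e.out.1) (P e.out.2) s' = z' at hs'
  change seg (P f.out.1) (P f.out.2) t' = z' at ht'
  have a1 := ori_seg (ht.trans hs.symm)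
  have a2 := ori_seg (ht'.trans hs'.symm)
  set A := ori (P f.out.1) (P f.out.2) (P e.out.1) with hA
  set B := ori (P f.out.1) (P f.out.2) (P e.out.2) with hB
  have hf' : s(f.out.1, f.out.2) = f := f.out_eq
  have he' : s(e.out.1, e.out.2) = e := e.out_eq
  have hfne : f.out.1 ≠ f.out.2 := by
    intro hh
    apply G.not_isDiag_of_mem_edgeSet hf
    rw [← hf', Sym2.mk_isDiag_iff]
    exact hh
  have hene : e.out.1 ≠ e.out.2 := by
    intro hh
    apply G.not_isDiag_of_mem_edgeSet he
    rw [← he', Sym2.mk_isDiag_iff]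
    exact hh
  have hAB : A ≠ B := by
    intro hAB
    have hA0 : A = 0 := by rw [hAB] at a1; rw [hAB]; linarith
    have hB0 : B = 0 := by rw [← hAB]; exact hA0
    have c1 : e.out.1 = f.out.1 ∨ e.out.1 = f.out.2 := by
      by_contra hc
      push Not at hc
      exact h.gen _ _ _ hfne hc.1 hc.2 hA0
    have c2 : e.out.2 = f.out.1 ∨ e.out.2 = f.out.2 := by
      by_contra hc
      push Not at hc
      exact h.gen _ _ _ hfne hc.1 hc.2 hB0
    apply hef
    rw [← he', ← hf', Sym2.eq_iff]
    rcases c1 with c1 | c1 <;> rcases c2 with c2 | c2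
    · exact absurd (c1.trans c2.symm) hene
    · exact Or.inl ⟨c1, c2⟩
    · exact Or.inr ⟨c1, c2⟩
    · exact absurd (c1.trans c2.symm) hene
  have hs : s = s' := by
    have : (s - s') * (B - A) = 0 := by linarith
    rcases mul_eq_zero.mp this with hh | hh
    · linarith
    · exact absurd (by linarith) hAB
  subst hs
  rw [← hs', ← ‹seg (P e.out.1) (P e.out.2) s = z›]

/-- what a crossing looks like -/
lemma crossing_form (h : GenPos P) {x : Sym2 (Sym2 V) × ℂ} (hx : x ∈ (straight G P h).crossings) :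
    ∃ a b c d, G.Adj a b ∧ G.Adj c d ∧ a ≠ b ∧ a ≠ c ∧ a ≠ d ∧ b ≠ c ∧ b ≠ d ∧ c ≠ d ∧
      x.1 = s(s(a, b), s(c, d)) ∧
      ori (P a) (P b) (P c) * ori (P a) (P b) (P d) < 0 ∧
      ori (P c) (P d) (P a) * ori (P c) (P d) (P b) < 0 := by
  obtain ⟨e, he, f, hf, hef, hxe, ⟨s, ⟨hs0, hs1⟩, hs⟩, ⟨t, ⟨ht0, ht1⟩, ht⟩⟩ := hx
  change seg (P e.out.1) (P e.out.2) s = x.2 at hs
  change seg (P f.out.1) (P f.out.2) t = x.2 at ht
  have he' : s(e.out.1, e.out.2) = e := e.out_eq
  have hf' : s(f.out.1, f.out.2) = f := f.out_eq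
  set a := e.out.1
  set b := e.out.2
  set c := f.out.1
  set d := f.out.2
  have hab : G.Adj a b := by
    rw [← SimpleGraph.mem_edgeSet, he']; exact he
  have hcd : G.Adj c d := by
    rw [← SimpleGraph.mem_edgeSet, hf']; exact hf
  have o1 := ori_seg (hs.trans ht.symm)
  have o2 := ori_seg (ht.trans hs.symm)
  have hne : s(a, b) ≠ s(c, d) := by rw [he', hf']; exact hef
  have hac : a ≠ c := by
    intro hh
    rw [← hh, ori_self₁, mul_zero, zero_add] at o1
    rcases mul_eq_zero.mp o1 with h1 | h1
    · exact ht0.ne' h1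
    · refine h.gen a b d hab.ne ?_ ?_ h1
      · rw [hh]; exact hcd.ne'
      · rintro h2; exact hne (by rw [hh, h2])
  have had : a ≠ d := by
    intro hh
    rw [← hh, ori_self₁, mul_zero, add_zero] at o1
    rcases mul_eq_zero.mp o1 with h1 | h1
    · linarith
    · refine h.gen a b c hab.ne ?_ ?_ h1
      · rw [hh]; exact hcd.ne
      · rintro h2; exact hne (by rw [hh, h2, Sym2.eq_swap])
  have hbc : b ≠ c := by
    intro hh
    rw [← hh, ori_self₂, mul_zero, zero_add] at o1
    rcases mul_eq_zero.mp o1 with h1 | h1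
    · exact ht0.ne' h1
    · refine h.gen a b d hab.ne had.symm ?_ h1
      rw [hh]; exact hcd.ne'
  have hbd : b ≠ d := by
    intro hh
    rw [← hh, ori_self₂, mul_zero, add_zero] at o1
    rcases mul_eq_zero.mp o1 with h1 | h1
    · linarith
    · refine h.gen a b c hab.ne hac.symm ?_ h1
      rw [hh]; exact hcd.ne
  refine ⟨a, b, c, d, hab, hcd, hab.ne, hac, had, hbc, hbd, hcd.ne, ?_, ?_, ?_⟩
  · rw [hxe, he', hf']
  · have n1 := h.gen a b c hab.ne hac.symm hbc.symm
    have n2 := h.gen a b d hab.ne had.symm hbd.symm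
    have e1 : t * (ori (P a) (P b) (P c) * ori (P a) (P b) (P d)) =
        -((1 - t) * (ori (P a) (P b) (P c)) ^ 2) := by
      linear_combination (ori (P a) (P b) (P c)) * o1
    have p1 : 0 < (1 - t) * (ori (P a) (P b) (P c)) ^ 2 := by
      have : 0 < (ori (P a) (P b) (P c)) ^ 2 := by positivity
      have h1t : 0 < 1 - t := by linarith
      positivity
    by_contra hc
    push Not at hc
    have := mul_nonneg ht0.le hc
    linarith
  · have n1 := h.gen c d a hcd.ne hac had
    have e1 : s * (ori (P c) (P d) (P a) * ori (P c) (P d) (P b)) =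
        -((1 - s) * (ori (P c) (P d) (P a)) ^ 2) := by
      linear_combination (ori (P c) (P d) (P a)) * o2
    have p1 : 0 < (1 - s) * (ori (P c) (P d) (P a)) ^ 2 := by
      have : 0 < (ori (P c) (P d) (P a)) ^ 2 := by positivity
      have h1t : 0 < 1 - s := by linarith
      positivity
    by_contra hc
    push Not at hc
    have := mul_nonneg hs0.le hc
    linarith

/-- Bounding the number of crossings of a straight-line drawing. -/
theorem ncard_le (h : GenPos P) (S : Finset (Sym2 (Sym2 V)))
    (H : ∀ a b c d, G.Adj a b → G.Adj c d → a ≠ b → a ≠ c → a ≠ d → b ≠ c → b ≠ d → c ≠ d →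
      ori (P a) (P b) (P c) * ori (P a) (P b) (P d) < 0 →
      ori (P c) (P d) (P a) * ori (P c) (P d) (P b) < 0 → s(s(a, b), s(c, d)) ∈ S) :
    (straight G P h).crossings.Finite ∧ (straight G P h).crossings.ncard ≤ S.card := by
  have hsub : Prod.fst '' (straight G P h).crossings ⊆ (S : Set (Sym2 (Sym2 V))) := by
    rintro _ ⟨x, hx, rfl⟩
    obtain ⟨a, b, c, d, h1, h2, h3, h4, h5, h6, h7, h8, h9, h10, h11⟩ := crossing_form h hx
    rw [h9]
    exact H a b c d h1 h2 h3 h4 h5 h6 h7 h8 h10 h11
  have hinj : Set.InjOn Prod.fst (straight G P h).crossings := by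
    rintro ⟨x, z⟩ hx ⟨y, z'⟩ hy hxy
    change x = y at hxy
    subst hxy
    obtain ⟨e, he, f, hf, hef, hxe, h1, h2⟩ := hx
    obtain ⟨e', he', f', hf', hef', hxe', h1', h2'⟩ := hy
    simp only at hxe hxe' h1 h2 h1' h2'
    have hz : z = z' := by
      rcases Sym2.eq_iff.mp (hxe.symm.trans hxe') with ⟨r1, r2⟩ | ⟨r1, r2⟩
      · subst r1; subst r2
        exact pt_unique h he hf hef h1 h2 h1' h2'
      · subst r1; subst r2
        exact pt_unique h he hf hef h1 h2 h2' h1'
    rw [hz]
  have hfin : (straight G P h).crossings.Finite :=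
    Set.Finite.of_finite_image ((Finset.finite_toSet S).subset hsub) hinj
  refine ⟨hfin, ?_⟩
  rw [← Set.ncard_image_of_injOn hinj, ← Set.ncard_coe_finset]
  exact Set.ncard_le_ncard hsub (Finset.finite_toSet S)

/-- The crossing number is at most the number of crossings of a drawing. -/
theorem crossingNumber_le {G : SimpleGraph V} (D : Drawing G) (hf : D.crossings.Finite) :
    crossingNumber G ≤ D.crossings.ncard := Nat.sInf_le ⟨D, hf, rfl⟩

/-- Pulling a drawing back along an injective map. -/
noncomputable def pull {W : Type*} (D : Drawing G) (f : W ↪ V) : Drawing (G.comap f) where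
  pos w := D.pos (f w)
  pos_injective x y hxy := f.injective (D.pos_injective hxy)
  arc e := D.arc (e.map f)
  arc_continuousOn e he := D.arc_continuousOn _ (by
    induction e with
    | _ x y => exact he)
  arc_injOn e he := D.arc_injOn _ (by
    induction e with
    | _ x y => exact he)
  arc_ends u v huv := D.arc_ends (f u) (f v) huv
  arc_avoids e he t ht w := D.arc_avoids _ (by
    induction e with
    | _ x y => exact he) t ht (f w)

lemma comap_mem {W : Type*} (f : W ↪ V) {e : Sym2 W} (he : e ∈ (G.comap f).edgeSet) :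
    e.map f ∈ G.edgeSet := by
  induction e with
  | _ x y => exact he

theorem crossingNumber_comap {W : Type*} [Fintype V] (G : SimpleGraph V) (f : W ↪ V) :
    crossingNumber (G.comap f) ≤ crossingNumber G := by
  obtain ⟨D, hD, hc⟩ := crossingNumber_attained G
  have hinj : Function.Injective (fun x : Sym2 (Sym2 W) × ℂ =>
      ((x.1.map (fun e : Sym2 W => e.map f), x.2) : Sym2 (Sym2 V) × ℂ)) := by
    rintro ⟨x, z⟩ ⟨y, z'⟩ hxy
    simp only [Prod.mk.injEq] at hxy
    have := Sym2.map.injective (Sym2.map.injective f.injective) hxy.1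
    rw [this, hxy.2]
  have hsub : (fun x : Sym2 (Sym2 W) × ℂ =>
      ((x.1.map (fun e : Sym2 W => e.map f), x.2) : Sym2 (Sym2 V) × ℂ)) '' (pull D f).crossings ⊆
      D.crossings := by
    rintro _ ⟨x, ⟨e, he, f', hf', hef, hx, h1, h2⟩, rfl⟩
    refine ⟨e.map f, comap_mem f he, f'.map f, comap_mem f hf', fun hh =>
      hef (Sym2.map.injective f.injective hh), ?_, h1, h2⟩
    simp only
    rw [hx, Sym2.map_mk]
  have hfin : (pull D f).crossings.Finite :=
    Set.Finite.of_finite_image (hD.subset hsub) hinj.injOn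
  refine (crossingNumber_le _ hfin).trans ?_
  rw [← hc, ← Set.ncard_image_of_injective _ hinj]
  exact Set.ncard_le_ncard hsub hD

theorem biplanar_comap {W : Type*} [Fintype V] (G : SimpleGraph V) (f : W ↪ V) :
    biplanarCrossingNumber (G.comap f) ≤ biplanarCrossingNumber G := by
  obtain ⟨G₁, G₂, hG, hd, hc⟩ := biplanar_attained G
  have h1 : biplanarCrossingNumber (G.comap f) ≤
      crossingNumber (G₁.comap f) + crossingNumber (G₂.comap f) := by
    apply Nat.sInf_le
    refine ⟨G₁.comap f, G₂.comap f, ?_, ?_, rfl⟩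
    · ext x y
      rw [← hG]
      rfl
    · rw [disjoint_iff]
      ext x y
      have := congrArg (fun H : SimpleGraph V => H.Adj (f x) (f y)) (disjoint_iff.mp hd)
      simpa using this
  rw [hc]
  exact h1.trans (Nat.add_le_add (crossingNumber_comap G₁ f) (crossingNumber_comap G₂ f))

theorem biplanar_top_le {V W : Type*} [Fintype V] [Fintype W]
    (h : Fintype.card W ≤ Fintype.card V) :
    biplanarCrossingNumber (⊤ : SimpleGraph W) ≤ biplanarCrossingNumber (⊤ : SimpleGraph V) := by
  obtain ⟨f⟩ := Function.Embedding.nonempty_of_card_le h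
  have : (⊤ : SimpleGraph W) = (⊤ : SimpleGraph V).comap f := by
    ext x y
    simp
  rw [this]
  exact biplanar_comap _ f

end Pool.Agent.Helper770.Straight
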